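import Pool.Agent.MP_28f2cb_lc.H31.Rv

/-! The centre lemma: a point of the small field from which finitely many polynomials show no
cancellation. -/

namespace Pool.Agent.MP_28f2cb_lc.H31

open Polynomial

variable {E : Type} [Field E] {Γ : Type} [LinearOrderedCommGroupWithZero Γ] {w : Valuation E Γ}

/-- Residue characteristic zero. -/
def Res0 (w : Valuation E Γ) : Prop := ∀ n : ℕ, n ≠ 0 → w (n : E) = 1

lemma Res0.charZero (h : Res0 w) : CharZero E := by
  refine charZero_of_inj_zero fun n hn => ?_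
  by_contra h0
  have := h n h0
  rw [hn, map_zero] at this
  exact zero_ne_one this

lemma Res0.int (h : Res0 w) {n : ℤ} (hn : n ≠ 0) : w (n : E) = 1 := by
  obtain ⟨m, rfl | rfl⟩ := n.eq_nat_or_neg
  · simpa using h m (by simpa using hn)
  · simpa using h m (by simpa using hn)

lemma hasse_ne_zero {R : Type} [Field R] [CharZero R] {f : R[X]} (hf : f ≠ 0) {j : ℕ}
    (hj : j ≤ f.natDegree) : hasseDeriv j f ≠ 0 := fun h => by
  have := congrArg (fun p => p.coeff (f.natDegree - j)) h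
  simp only [hasseDeriv_coeff, coeff_zero, Nat.sub_add_cancel hj] at this
  rcases mul_eq_zero.1 this with h | h
  · exact (Nat.choose_pos hj).ne' (by exact_mod_cast h)
  · exact hf (leadingCoeff_eq_zero.1 h)

lemma map_hasse {R : Type} [Field R] (φ : R →+* E) (f : R[X]) (j : ℕ) :
    (hasseDeriv j f).map φ = hasseDeriv j (f.map φ) := by
  ext i; simp [hasseDeriv_coeff]

lemma taylor_hasse (a : E) (p : E[X]) (i j : ℕ) :
    (taylor a (hasseDeriv j p)).coeff i = ((i + j).choose i : E) * (taylor a p).coeff (i + j) := by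
  rw [taylor_coeff, taylor_coeff]
  have := LinearMap.congr_fun (hasseDeriv_comp (R := E) i j) p
  simp only [LinearMap.comp_apply, LinearMap.smul_apply] at this
  rw [this]
  simp

lemma centre (h0 : Res0 w) {F : Subfield E} (hF : Hens w F) {R : Type} [Field R] (φ : R →+* E)
    (hφ : ∀ r, φ r ∈ F) {a : E} (ha : a ∈ F) (ha' : ∀ r, φ r ≠ a) (P : ℕ → Prop)
    (hP : ∀ i j, i ≤ j → P j → P i) (hP1 : P 1)
    (hroot : ∀ g : R[X], g ≠ 0 → P g.natDegree → ∀ c ∈ F, (g.map φ).eval c = 0 → ∃ r, φ r = c)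
    (S : Finset R[X]) (hS : ∀ f ∈ S, f ≠ 0 ∧ P f.natDegree) :
    ∃ c : R, ∀ f ∈ S,
      GB w (· ≤ w ((f.map φ).eval a)) ((taylor c f).map φ) (a - φ c) := by
  classical
  haveI := h0.charZero
  haveI : CharZero R := φ.charZero
  set S' := insert X S with hS'
  have hS2 : ∀ f ∈ S', f ≠ 0 ∧ P f.natDegree := fun f hf => by
    rcases Finset.mem_insert.1 hf with rfl | hf
    · exact ⟨X_ne_zero, by simpa using hP1⟩
    · exact hS f hf
  set A : R[X] → ℕ → E := fun f j => (taylor a (f.map φ)).coeff j with hA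
  have hA0 : ∀ f ∈ S', ∀ j ≤ f.natDegree, A f j ≠ 0 := fun f hf j hj e => by
    obtain ⟨r, hr⟩ := hroot (hasseDeriv j f) (hasse_ne_zero (hS2 f hf).1 hj)
      (hP _ _ ((natDegree_hasseDeriv_le _ _).trans (Nat.sub_le _ _)) (hS2 f hf).2) a ha
      (by rw [map_hasse, ← taylor_coeff]; exact e)
    exact ha' r hr
  have hAz : ∀ f j, f.natDegree < j → A f j = 0 := fun f j hj =>
    coeff_eq_zero_of_natDegree_lt (by rwa [natDegree_taylor, natDegree_map])
  set I : Finset (R[X] × ℕ) :=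
    S'.biUnion fun f => (Finset.range f.natDegree).image fun j => (f, j) with hI
  have hmem : ∀ f j, (f, j) ∈ I ↔ f ∈ S' ∧ j < f.natDegree := fun f j => by
    simp only [hI, Finset.mem_biUnion, Finset.mem_image, Finset.mem_range, Prod.mk.injEq]
    constructor
    · rintro ⟨g, hg, i, hi, rfl, rfl⟩; exact ⟨hg, hi⟩
    · rintro ⟨hg, hi⟩; exact ⟨f, hg, j, hi, rfl, rfl⟩
  set D : R[X] × ℕ → Γ := fun z => w (A z.1 z.2) / w (A z.1 (z.2 + 1)) with hD
  obtain ⟨z₀, hz₀, hmin⟩ := I.exists_min_image D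
    ⟨(X, 0), (hmem _ _).2 ⟨Finset.mem_insert_self _ _, by simp⟩⟩
  set ρ := D z₀ with hρ
  obtain ⟨⟨f, j⟩, hz, hmax⟩ := (I.filter fun z => D z = ρ).exists_max_image Prod.snd
    ⟨z₀, Finset.mem_filter.2 ⟨hz₀, rfl⟩⟩
  obtain ⟨hz, hDz⟩ := Finset.mem_filter.1 hz
  obtain ⟨hf, hj⟩ := (hmem _ _).1 hz
  have step : ∀ g ∈ S', ∀ i, w (A g (i + 1)) * ρ ≤ w (A g i) := fun g hg i => by
    by_cases hi : i < g.natDegree
    · have := hmin (g, i) ((hmem _ _).2 ⟨hg, hi⟩)
      rwa [hD, le_div_iff₀ (w.pos_iff.2 (hA0 g hg _ hi)), mul_comm] at this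
    · rw [hAz g (i + 1) (by omega)]; simp
  have tele : ∀ g ∈ S', ∀ k i, w (A g (k + i)) * ρ ^ i ≤ w (A g k) := fun g hg k i => by
    induction i with
    | zero => simp
    | succ i ih =>
      refine le_trans ?_ ih
      rw [pow_succ', ← mul_assoc, ← add_assoc]
      gcongr
      exact step g hg _
  have hj0 := hA0 f hf j hj.le
  have hj1 := hA0 f hf (j + 1) hj
  have hρv : w (A f (j + 1)) * ρ = w (A f j) := by
    rw [← hDz, hD, mul_div_cancel₀ _ (w.ne_zero_iff.2 hj1)]
  have hρ0 : 0 < ρ := by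
    rw [← hDz]; exact div_pos (w.pos_iff.2 hj0) (w.pos_iff.2 hj1)
  have strict : w (A f (j + 2)) * ρ < w (A f (j + 1)) := by
    by_cases hi : j + 1 < f.natDegree
    · refine lt_of_le_of_ne (step f hf _) fun e => ?_
      have := hmax (f, j + 1) (Finset.mem_filter.2 ⟨(hmem _ _).2 ⟨hf, hi⟩, by
        rw [hD]; dsimp only
        rw [← e, mul_div_cancel_left₀ _ (w.ne_zero_iff.2 (hA0 f hf _ hi))]⟩)
      simp at this
    · rw [hAz f (j + 2) (by omega)]; simpa using w.pos_iff.2 hj1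
  set g := hasseDeriv j f with hg
  set p := taylor a (g.map φ) with hp
  have hB : ∀ i, w (p.coeff i) = w (A f (i + j)) := fun i => by
    rw [hp, hg, map_hasse, taylor_hasse, map_mul, h0 _ (Nat.choose_pos (by omega)).ne', one_mul]
  have hB0 : w (p.coeff 0) = w (A f j) := by rw [hB, zero_add]
  have hB1 : w (p.coeff 1) = w (A f (j + 1)) := by rw [hB, add_comm]
  have hp1 : p.coeff 1 ≠ 0 := w.ne_zero_iff.1 (by rw [hB1]; exact w.ne_zero_iff.2 hj1)
  set b := -p.coeff 0 / p.coeff 1 with hb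
  have hbv : w b = ρ := by
    rw [hb, map_div₀, w.map_neg, hB0, hB1, ← hDz]
  have hpF : ∀ i, p.coeff i ∈ F := taylor_mem (fun i => by rw [coeff_map]; exact hφ _) ha
  have hμ : w (A f j) ≠ 0 := w.ne_zero_iff.2 hj0
  obtain ⟨t, htF, ht, htb⟩ := newton (p₀ := C (p.coeff 0) + C (p.coeff 1) * X) (p := p) (b := b)
    (b' := b) hF hμ hpF (F.div_mem (F.neg_mem (hpF 0)) (hpF 1))
    (fun i => by
      rcases i with _ | _ | i
      · simp [hB0]
      · simp [hB1, hbv, hρv]
      · simp [coeff_C, coeff_X])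
    (fun i => by
      rcases i with _ | _ | i
      · simpa using zero_lt_iff.2 hμ
      · simpa using zero_lt_iff.2 hμ
      · have e : (p - (C (p.coeff 0) + C (p.coeff 1) * X)).coeff (i + 1 + 1) =
            p.coeff (i + 1 + 1) := by simp [coeff_C, coeff_X]
        rw [e, map_mul, map_pow, hB, hbv]
        have t1 := tele f hf (j + 2) i
        calc w (A f (i + 1 + 1 + j)) * ρ ^ (i + 1 + 1)
            = w (A f (j + 2 + i)) * ρ ^ i * ρ * ρ := by
              rw [show i + 1 + 1 + j = j + 2 + i by ring, pow_succ, pow_succ, mul_assoc, mul_assoc,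
                mul_assoc]
          _ ≤ w (A f (j + 2)) * ρ * ρ := by gcongr
          _ < w (A f (j + 1)) * ρ := by gcongr
          _ = _ := hρv)
    (Rv.refl b) (by simp [hb]; field_simp; ring)
    (by simp [hbv, hB1, mul_comm ρ, hρv])
  obtain ⟨c, hc⟩ := hroot g (hasse_ne_zero (hS2 f hf).1 hj.le)
    (hP _ _ ((natDegree_hasseDeriv_le _ _).trans (Nat.sub_le _ _)) (hS2 f hf).2) (t + a)
    (F.add_mem htF ha) (by rw [← taylor_eval]; exact ht)
  refine ⟨c, fun f' hf' => ?_⟩
  have hv : w (a - φ c) = ρ := by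
    rw [hc, w.map_sub_swap, add_sub_cancel_right, htb.val, hbv]
  have h1 : GB w (· ≤ w ((f'.map φ).eval a)) (taylor a (f'.map φ)) (a - φ c) := fun i => by
    have := tele f' (Finset.mem_insert_of_mem hf') 0 i
    rw [zero_add] at this
    rw [map_mul, map_pow, hv, ← taylor_coeff_zero]
    exact this
  have h2 := h1.taylor (low_le _) (e := φ c - a) (w.map_sub_swap _ _).le
  rwa [taylor_taylor, sub_add_cancel, ← map_taylor] at h2

end Pool.Agent.MP_28f2cb_lc.H31
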