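import Pool.Agent.MP_28f2cb_lc.H31.Centre

/-! Embeddings that preserve leading terms extend to countable henselian fields. -/

namespace Pool.Agent.MP_28f2cb_lc.H31

open Polynomial

variable {E : Type} [Field E] {Γ : Type} [LinearOrderedCommGroupWithZero Γ] {w : Valuation E Γ}

/-- Countable saturation for conditions `w (h t) < 1`. -/
def Sat (w : Valuation E Γ) (K : Subfield E) : Prop :=
  ∀ h : ℕ → E[X], (∀ j i, (h j).coeff i ∈ K) →
    (∀ n, ∃ t ∈ K, ∀ j < n, w ((h j).eval t) < 1) → ∃ t ∈ K, ∀ j, w ((h j).eval t) < 1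

section step

variable {F K : Subfield E} {R : Type} [Field R] {φ ψ : R →+* E}

lemma gb_diff (hR : ∀ r, Rv w (φ r) (ψ r)) {p : R[X]} {b : E} {μ : Γ} (hμ : μ ≠ 0)
    (h : GB w (· ≤ μ) (p.map φ) b) : GB w (· < μ) (p.map ψ - p.map φ) b := fun i => by
  have := h i
  rw [coeff_map] at this
  rw [coeff_sub, coeff_map, coeff_map, sub_mul]
  exact ((hR _).mul_right _).sub_lt hμ this

lemma rv_of_centre (hR : ∀ r, Rv w (φ r) (ψ r)) {f : R[X]} {a t : E} {c : R}
    (hf : (f.map φ).eval a ≠ 0)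
    (h : GB w (· ≤ w ((f.map φ).eval a)) ((taylor c f).map φ) (a - φ c))
    (ht : Rv w (a - φ c) t) : Rv w ((f.map φ).eval a) ((f.map ψ).eval (t + ψ c)) := by
  have hμ := w.ne_zero_iff.2 hf
  have := cmp hμ h (gb_diff hR hμ h) ht
  rw [map_taylor, map_taylor, taylor_eval, taylor_eval, sub_add_cancel] at this
  exact Or.inr this

lemma step_alg (h0 : Res0 w) (hF : Hens w F) (hK : Hens w K)
    (hFK : ∀ b ∈ F, ∃ b' ∈ K, Rv w b b') (hφ : ∀ r, φ r ∈ F) (hψ : ∀ r, ψ r ∈ K)
    (hR : ∀ r, Rv w (φ r) (ψ r))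
    (hex : ∃ d, ∃ a ∈ F, (∀ r, φ r ≠ a) ∧ ∃ g : R[X], g ≠ 0 ∧ g.natDegree = d ∧
      (g.map φ).eval a = 0) :
    ∃ a ∈ F, (∀ r, φ r ≠ a) ∧ ∃ a' ∈ K, ∀ f : R[X],
      Rv w ((f.map φ).eval a) ((f.map ψ).eval a') := by
  classical
  haveI := h0.charZero
  haveI : CharZero R := φ.charZero
  obtain ⟨a, ha, ha', g, hg, hd, hga⟩ := Nat.find_spec hex
  have hroot : ∀ f : R[X], f ≠ 0 → f.natDegree < g.natDegree → ∀ c ∈ F,
      (f.map φ).eval c = 0 → ∃ r, φ r = c := fun f hf hlt c hc e => by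
    by_contra hn
    push Not at hn
    exact Nat.find_min hex (hd ▸ hlt) ⟨c, hc, hn, f, hf, rfl, e⟩
  have hne : ∀ f : R[X], f ≠ 0 → f.natDegree < g.natDegree → (f.map φ).eval a ≠ 0 :=
    fun f hf hlt e => by
      obtain ⟨r, hr⟩ := hroot f hf hlt a ha e
      exact ha' r hr
  have hd2 : 1 < g.natDegree := by
    by_contra hle
    have e := eq_X_add_C_of_natDegree_le_one (not_lt.1 hle)
    rw [e] at hga
    simp only [Polynomial.map_add, Polynomial.map_mul, map_C, map_X, eval_add, eval_mul, eval_C,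
      eval_X] at hga
    by_cases h1 : g.coeff 1 = 0
    · rw [h1, map_zero, zero_mul, zero_add, map_eq_zero] at hga
      exact hg (by rw [e, h1, hga]; simp)
    · refine ha' (-g.coeff 0 / g.coeff 1) ?_
      have : φ (g.coeff 1) ≠ 0 := by simpa using h1
      rw [map_div₀, map_neg, div_eq_iff this]
      linear_combination -hga
  have hg' : derivative g ≠ 0 := fun e => by
    have := derivative_eq_zero.1 e
    omega
  have hg'd : (derivative g).natDegree < g.natDegree := natDegree_derivative_lt (by omega)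
  have key : ∀ S : Finset R[X], (∀ f ∈ S, f ≠ 0 ∧ f.natDegree < g.natDegree) →
      ∃ a' ∈ K, (g.map ψ).eval a' = 0 ∧
        ∀ f ∈ S, Rv w ((f.map φ).eval a) ((f.map ψ).eval a') := fun S hS => by
    obtain ⟨c, hc⟩ := centre h0 hF φ hφ ha ha' (· < g.natDegree) (fun i j h h' => h.trans_lt h')
      hd2 hroot (insert (derivative g) S) (fun f hf => by
        rcases Finset.mem_insert.1 hf with rfl | hf
        · exact ⟨hg', hg'd⟩
        · exact hS f hf)
    set b := a - φ c with hb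
    have hb0 : b ≠ 0 := sub_ne_zero.2 (ha' c).symm
    obtain ⟨b', hb'K, hb'⟩ := hFK b (F.sub_mem ha (hφ c))
    have hder := hc _ (Finset.mem_insert_self _ _)
    have hne' := hne _ hg' hg'd
    set μ := w b * w (((derivative g).map φ).eval a) with hμ
    have hμ0 : μ ≠ 0 := mul_ne_zero (w.ne_zero_iff.2 hb0) (w.ne_zero_iff.2 hne')
    set p₀ := (taylor c g).map φ with hp₀
    have hdp : derivative p₀ = (taylor c (derivative g)).map φ := by
      rw [hp₀, derivative_map, taylor_apply, taylor_apply, derivative_comp]; simp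
    have hz : p₀.eval b = 0 := by rw [hp₀, map_taylor, taylor_eval, hb, sub_add_cancel, hga]
    have hpos : ∀ i, w (p₀.coeff (i + 1) * b ^ (i + 1)) ≤ μ := fun i => by
      have := hder i
      rw [← hdp, coeff_derivative] at this
      have e : w ((i : E) + 1) = 1 := by simpa using h0 (i + 1) (by omega)
      simp only [map_mul, e, mul_one] at this
      rw [pow_succ, map_mul, map_mul, ← mul_assoc, hμ, mul_comm (w b)]
      gcongr
    have hGB : GB w (· ≤ μ) p₀ b := fun i => by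
      rcases i with _ | i
      · rw [eval_eq_sum_range, Finset.sum_range_succ'] at hz
        rw [eq_neg_of_add_eq_zero_right hz, w.map_neg]
        exact (low_le μ).sum _ _ fun i _ => hpos i
      · exact hpos i
    obtain ⟨t, htK, ht, htb⟩ := newton (p := (taylor c g).map ψ) hK hμ0
      (fun i => by rw [coeff_map]; exact hψ _) hb'K hGB (gb_diff hR hμ0 hGB) hb' hz
      (by rw [hdp, map_taylor, taylor_eval, map_mul, hμ, hb, sub_add_cancel])
    refine ⟨t + ψ c, K.add_mem htK (hψ c), by rwa [map_taylor, taylor_eval] at ht,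
      fun f hf => ?_⟩
    exact rv_of_centre hR (hne f (hS f hf).1 (hS f hf).2) (hc f (Finset.mem_insert_of_mem hf)) htb
  have all : ∃ a' ∈ K, (g.map ψ).eval a' = 0 ∧ ∀ f : R[X], f ≠ 0 → f.natDegree < g.natDegree →
      Rv w ((f.map φ).eval a) ((f.map ψ).eval a') := by
    by_contra hn
    push Not at hn
    choose! bad hb1 hb2 hb3 using hn
    have hgψ : g.map ψ ≠ 0 := by simpa using hg
    set Z := (g.map ψ).roots.toFinset.filter (· ∈ K) with hZ
    have hZm : ∀ z, z ∈ Z ↔ (g.map ψ).eval z = 0 ∧ z ∈ K := fun z => by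
      rw [hZ, Finset.mem_filter, Multiset.mem_toFinset, mem_roots hgψ, IsRoot.def]
    obtain ⟨a', ha'K, hz, hall⟩ := key (Z.image bad) (fun f hf => by
      obtain ⟨z, hz, rfl⟩ := Finset.mem_image.1 hf
      rw [hZm] at hz
      exact ⟨hb1 _ hz.2 hz.1, hb2 _ hz.2 hz.1⟩)
    exact hb3 a' ha'K hz (hall _ (Finset.mem_image_of_mem _ ((hZm _).2 ⟨hz, ha'K⟩)))
  obtain ⟨a', ha'K, hz, hall⟩ := all
  refine ⟨a, ha, ha', a', ha'K, fun f => ?_⟩
  rw [← EuclideanDomain.div_add_mod f g]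
  simp only [Polynomial.map_add, Polynomial.map_mul, eval_add, eval_mul, hga, hz, zero_mul,
    zero_add]
  by_cases hr : f % g = 0
  · rw [hr]; simpa using Rv.refl 0
  · exact hall _ hr (natDegree_mod_lt _ (by omega))

lemma step_trans (h0 : Res0 w) (hF : Hens w F) (hS : Sat w K) [Countable R]
    (hFK : ∀ b ∈ F, ∃ b' ∈ K, Rv w b b') (hφ : ∀ r, φ r ∈ F) (hψ : ∀ r, ψ r ∈ K)
    (hR : ∀ r, Rv w (φ r) (ψ r))
    (hroot : ∀ g : R[X], g ≠ 0 → ∀ c ∈ F, (g.map φ).eval c = 0 → ∃ r, φ r = c)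
    {a : E} (ha : a ∈ F) (ha' : ∀ r, φ r ≠ a) :
    ∃ a' ∈ K, ∀ f : R[X], Rv w ((f.map φ).eval a) ((f.map ψ).eval a') := by
  classical
  have hne : ∀ f : R[X], f ≠ 0 → (f.map φ).eval a ≠ 0 := fun f hf e => by
    obtain ⟨r, hr⟩ := hroot f hf a ha e
    exact ha' r hr
  haveI : Countable R[X] := by
    rw [← Cardinal.mk_le_aleph0_iff]
    exact Polynomial.cardinalMk_le_max.trans (max_le Cardinal.mk_le_aleph0 le_rfl)
  obtain ⟨e, he⟩ := exists_surjective_nat R[X]
  have hu : ∀ f : R[X], ∃ u ∈ K, Rv w ((f.map φ).eval a) u := fun f =>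
    hFK _ (eval_mem (fun i => by rw [coeff_map]; exact hφ _) ha)
  choose u huK hu using hu
  have hu0 : ∀ f, f ≠ 0 → u f ≠ 0 := fun f hf e =>
    hne f hf (by have := (hu f).symm; rw [e] at this; exact this.zero_right)
  set h : ℕ → E[X] := fun j =>
    if e j = 0 then 0 else C (u (e j))⁻¹ * (e j).map ψ - 1 with hh
  have hiff : ∀ j t, w ((h j).eval t) < 1 ↔
      Rv w (((e j).map φ).eval a) (((e j).map ψ).eval t) := fun j t => by
    by_cases hj : e j = 0
    · simp [hh, hj, Rv]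
    · have h1 := hu0 _ hj
      have e1 : (h j).eval t = (((e j).map ψ).eval t - u (e j)) / u (e j) := by
        simp only [hh, if_neg hj, eval_sub, eval_mul, eval_C, eval_one]
        field_simp
      rw [e1, map_div₀, div_lt_one₀ (w.pos_iff.2 h1)]
      constructor
      · exact fun h => (hu _).trans (Or.inr h)
      · exact fun h => ((hu _).symm.trans h).sub_lt (w.ne_zero_iff.2 h1) le_rfl
  obtain ⟨t, htK, ht⟩ := hS h
    (fun j i => by
      simp only [hh]
      split_ifs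
      · simp
      · rw [coeff_sub, coeff_C_mul, coeff_map, coeff_one]
        refine K.sub_mem (K.mul_mem (K.inv_mem (huK _)) (hψ _)) ?_
        split_ifs <;> simp)
    (fun n => by
      obtain ⟨c, hc⟩ := centre h0 hF φ hφ ha ha' (fun _ => True) (fun _ _ _ _ => trivial) trivial
        (fun g hg _ => hroot g hg) (((Finset.range n).image e).filter (· ≠ 0))
        (fun f hf => ⟨(Finset.mem_filter.1 hf).2, trivial⟩)
      obtain ⟨b', hb'K, hb'⟩ := hFK (a - φ c) (F.sub_mem ha (hφ c))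
      refine ⟨b' + ψ c, K.add_mem hb'K (hψ c), fun j hj => (hiff _ _).2 ?_⟩
      by_cases h1 : e j = 0
      · rw [h1]; simpa using Rv.refl 0
      · exact rv_of_centre hR (hne _ h1) (hc _ (Finset.mem_filter.2
          ⟨Finset.mem_image_of_mem _ (Finset.mem_range.2 hj), h1⟩)) hb')
  refine ⟨t, htK, fun f => ?_⟩
  obtain ⟨j, rfl⟩ := he f
  exact (hiff _ _).1 (ht j)

end step

/-- The graph of an embedding that preserves leading terms. -/
def Good (w : Valuation E Γ) (F K : Subfield E) (R : Subring (E × E)) : Prop :=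
  ∀ z ∈ R, z.1 ∈ F ∧ z.2 ∈ K ∧ Rv w z.1 z.2

lemma Good.ext {F K : Subfield E} {R : Subring (E × E)} (hR : Good w F K R) {a a' : E}
    (ha : a ∈ F) (ha' : a' ∈ K)
    (h : ∀ f : R[X], Rv w ((f.map ((RingHom.fst E E).comp R.subtype)).eval a)
      ((f.map ((RingHom.snd E E).comp R.subtype)).eval a')) :
    ∃ R', Good w F K R' ∧ R ≤ R' ∧ (a, a') ∈ R' := by
  refine ⟨(eval₂RingHom R.subtype (a, a')).range, ?_, fun z hz => ⟨C ⟨z, hz⟩, by simp⟩,
    ⟨X, by simp⟩⟩
  rintro z ⟨f, rfl⟩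
  have e1 : (eval₂RingHom R.subtype (a, a') f).1 =
      (f.map ((RingHom.fst E E).comp R.subtype)).eval a := by
    rw [eval_map]; exact hom_eval₂ f R.subtype (RingHom.fst E E) (a, a')
  have e2 : (eval₂RingHom R.subtype (a, a') f).2 =
      (f.map ((RingHom.snd E E).comp R.subtype)).eval a' := by
    rw [eval_map]; exact hom_eval₂ f R.subtype (RingHom.snd E E) (a, a')
  rw [e1, e2]
  exact ⟨eval_mem (fun i => by rw [coeff_map]; exact (hR _ (f.coeff i).2).1) ha,
    eval_mem (fun i => by rw [coeff_map]; exact (hR _ (f.coeff i).2).2.1) ha', h f⟩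

theorem embed (h0 : Res0 w) {F K : Subfield E} [Countable F] (hF : Hens w F) (hK : Hens w K)
    (hS : Sat w K) (hFK : ∀ b ∈ F, ∃ b' ∈ K, Rv w b b') {R₀ : Subring (E × E)}
    (hR₀ : Good w F K R₀) : ∃ R, Good w F K R ∧ R₀ ≤ R ∧ ∀ a ∈ F, ∃ a', (a, a') ∈ R := by
  obtain ⟨R, hle, hmax⟩ := zorn_le_nonempty₀ {R | Good w F K R} (fun c hc hch y hy => by
    refine ⟨sSup c, fun z hz => ?_, fun z hz => le_sSup hz⟩
    obtain ⟨S, hS, hz⟩ := (Subring.mem_sSup_of_directedOn ⟨y, hy⟩ hch.directedOn).1 hz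
    exact hc hS z hz) R₀ hR₀
  have hR : Good w F K R := hmax.prop
  set φ := (RingHom.fst E E).comp R.subtype with hφ
  set ψ := (RingHom.snd E E).comp R.subtype with hψ
  have hext : ∀ a ∈ F, ∀ a' ∈ K,
      (∀ f : R[X], Rv w ((f.map φ).eval a) ((f.map ψ).eval a')) → (a, a') ∈ R :=
    fun a ha a' ha' h => by
      obtain ⟨R', h1, h2, h3⟩ := hR.ext ha ha' h
      exact hmax.le_of_ge h1 h2 h3
  have hRv : ∀ r : R, Rv w (φ r) (ψ r) := fun r => (hR _ r.2).2.2
  have hinj : ∀ r : R, φ r = 0 → r = 0 := fun r hr => by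
    have h2 : ψ r = 0 := by have := hRv r; rw [hr] at this; exact this.zero_right
    exact Subtype.ext (Prod.ext hr h2)
  have hfield : IsField R := by
    refine ⟨⟨0, 1, fun e => by simpa using congrArg φ e⟩, mul_comm, fun {z} hz => ?_⟩
    have h1 : φ z ≠ 0 := fun e => hz (hinj z e)
    have h2 : ψ z ≠ 0 := fun e => h1 (by
      have := (hRv z).symm; rw [e] at this; exact this.zero_right)
    have hm : ((φ z)⁻¹, (ψ z)⁻¹) ∈ R := by
      refine hext (φ z)⁻¹ (F.inv_mem (hR _ z.2).1) (ψ z)⁻¹ (K.inv_mem (hR _ z.2).2.1)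
        fun f => ?_
      have : ∃ (n : ℕ) (r : R), (f.map φ).eval (φ z)⁻¹ = φ r * (φ z)⁻¹ ^ n ∧
          (f.map ψ).eval (ψ z)⁻¹ = ψ r * (ψ z)⁻¹ ^ n := by
        induction f using Polynomial.induction_on' with
        | add p q hp hq =>
          obtain ⟨n, r, e1, e2⟩ := hp
          obtain ⟨m, s, e3, e4⟩ := hq
          refine ⟨n + m, r * z ^ m + s * z ^ n, ?_, ?_⟩
          · rw [Polynomial.map_add, eval_add, e1, e3]
            simp only [map_add, map_mul, map_pow, inv_pow, pow_add]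
            field_simp
          · rw [Polynomial.map_add, eval_add, e2, e4]
            simp only [map_add, map_mul, map_pow, inv_pow, pow_add]
            field_simp
        | monomial n c => exact ⟨n, c, by simp, by simp⟩
      obtain ⟨n, r, e1, e2⟩ := this
      rw [e1, e2]
      exact (hRv r).mul ((hRv z).inv.pow n)
    exact ⟨⟨_, hm⟩, Subtype.ext (Prod.ext (mul_inv_cancel₀ h1) (mul_inv_cancel₀ h2))⟩
  refine ⟨R, hR, hle, fun a ha => ?_⟩
  by_contra hn
  letI : Field R := hfield.toField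
  have hφF : ∀ r, φ r ∈ F := fun r => (hR _ r.2).1
  have hψK : ∀ r, ψ r ∈ K := fun r => (hR _ r.2).2.1
  haveI : Countable R := Function.Injective.countable (f := fun r : R => (⟨φ r, hφF r⟩ : F))
    fun r s e => φ.injective (congrArg Subtype.val e)
  by_cases hex : ∃ d, ∃ a ∈ F, (∀ r, φ r ≠ a) ∧ ∃ g : R[X], g ≠ 0 ∧ g.natDegree = d ∧
      (g.map φ).eval a = 0
  · obtain ⟨b, hb, hb', b', hb'K, h⟩ := step_alg h0 hF hK hFK hφF hψK hRv hex
    exact hb' ⟨_, hext b hb b' hb'K h⟩ rfl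
  · have ha' : ∀ r, φ r ≠ a := fun r e => hn ⟨ψ r, by rw [← e]; exact r.2⟩
    obtain ⟨a', ha'K, h⟩ := step_trans h0 hF hS hFK hφF hψK hRv (fun g hg c hc e => by
      by_contra hn'
      push Not at hn'
      exact hex ⟨_, c, hc, hn', g, hg, rfl, e⟩) ha ha'
    exact hn ⟨a', hext a ha a' ha'K h⟩

/-- Transfer of solutions of polynomial systems. -/
theorem transfer (h0 : Res0 w) {F K : Subfield E} [Countable F] (hF : Hens w F) (hK : Hens w K)
    (hS : Sat w K) (hFK : ∀ b ∈ F, ∃ b' ∈ K, Rv w b b') {x x' : E} (hx : x ∈ F) (hx' : x' ∈ K)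
    (h : ∀ f : ℤ[X], Rv w (aeval x f) (aeval x' f)) {n : ℕ} (y : Fin n → E) (hy : ∀ i, y i ∈ F) :
    ∃ y' : Fin n → E, (∀ i, y' i ∈ K) ∧ ∀ P : MvPolynomial (Fin (n + 1)) ℤ,
      MvPolynomial.aeval (Fin.cons x y : Fin (n + 1) → E) P = 0 →
      MvPolynomial.aeval (Fin.cons x' y' : Fin (n + 1) → E) P = 0 := by
  have hmem : ∀ (L : Subfield E) (z : E), z ∈ L → ∀ f : ℤ[X], aeval z f ∈ L := fun L z hz f => by
    rw [aeval_def, ← eval_map]
    exact eval_mem (fun i => by rw [coeff_map]; exact intCast_mem L _) hz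
  obtain ⟨R, hR, hle, hall⟩ := embed h0 hF hK hS hFK
    (R₀ := (aeval (x, x') : ℤ[X] →ₐ[ℤ] E × E).toRingHom.range) (by
      rintro z ⟨f, rfl⟩
      have e1 : (aeval (x, x') f).1 = aeval x f :=
        (aeval_algHom_apply (AlgHom.fst ℤ E E) (x, x') f).symm
      have e2 : (aeval (x, x') f).2 = aeval x' f :=
        (aeval_algHom_apply (AlgHom.snd ℤ E E) (x, x') f).symm
      change (aeval (x, x') f).1 ∈ F ∧ (aeval (x, x') f).2 ∈ K ∧
        Rv w (aeval (x, x') f).1 (aeval (x, x') f).2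
      rw [e1, e2]
      exact ⟨hmem F x hx f, hmem K x' hx' f, h f⟩)
  choose y' hy' using fun i => hall (y i) (hy i)
  refine ⟨y', fun i => (hR _ (hy' i)).2.1, fun P hP => ?_⟩
  have hxx : (x, x') ∈ R := hle ⟨X, by simp⟩
  have : ((MvPolynomial.aeval (Fin.cons x y : Fin (n + 1) → E) P,
      MvPolynomial.aeval (Fin.cons x' y' : Fin (n + 1) → E) P) : E × E) ∈ R := by
    clear hP
    induction P using MvPolynomial.induction_on with
    | C a =>
      rw [MvPolynomial.aeval_C, MvPolynomial.aeval_C]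
      exact (intCast_mem R a : ((a : ℤ) : E × E) ∈ R)
    | add p q hp hq => simpa using R.add_mem hp hq
    | mul_X p i hp =>
      have : (((Fin.cons x y : Fin (n + 1) → E) i, (Fin.cons x' y' : Fin (n + 1) → E) i) :
          E × E) ∈ R := by
        refine Fin.cases ?_ (fun i => ?_) i
        · simpa using hxx
        · simpa using hy' i
      simpa using R.mul_mem hp this
  have h2 := (hR _ this).2.2
  simp only [hP] at h2
  exact h2.zero_right

end Pool.Agent.MP_28f2cb_lc.H31
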