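import Pool.Agent.MP_28f2cb_lc.H31.Ultra

/-! A generic sequence of points avoids the frontiers of an existentially defined set. -/

namespace Pool.Agent.MP_28f2cb_lc.H31

open Polynomial Filter

lemma countable_poly : Countable ℤ[X] := by
  rw [← Cardinal.mk_le_aleph0_iff]
  exact Polynomial.cardinalMk_le_max.trans (max_le Cardinal.mk_le_aleph0 le_rfl)

lemma countable_mv (n : ℕ) : Countable (MvPolynomial (Fin n) ℤ) := by
  rw [← Cardinal.mk_le_aleph0_iff]
  exact MvPolynomial.cardinalMk_le_max.trans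
    (max_le (max_le Cardinal.mk_le_aleph0 Cardinal.mk_le_aleph0) le_rfl)

section acl

variable {E : Type} [Field E] {Γ : Type} [LinearOrderedCommGroupWithZero Γ] {w : Valuation E Γ}

/-- Relative algebraic closure of a subring. -/
def acl (A : Subring E) : Subfield E where
  __ := (Subalgebra.algebraicClosure A E).toSubring
  inv_mem' := fun _ hx => IsAlgebraic.inv hx

lemma mem_acl {A : Subring E} {x : E} : x ∈ acl A ↔ IsAlgebraic A x := Iff.rfl

lemma le_acl {A : Subring E} {x : E} (hx : x ∈ A) : x ∈ acl A :=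
  isAlgebraic_algebraMap (R := A) (A := E) ⟨x, hx⟩

instance acl_countable (A : Subring E) [Countable A] : Countable (acl A) :=
  (Algebraic.countable A E).to_subtype

lemma acl_root {A : Subring E} {G : E[X]} (hG : G ≠ 0) (hc : ∀ i, G.coeff i ∈ acl A) {t : E}
    (ht : G.eval t = 0) : t ∈ acl A := by
  obtain ⟨p, rfl⟩ : G ∈ lifts (algebraMap (Subalgebra.algebraicClosure A E) E) := by
    rw [lifts_iff_coeff_lifts]
    exact fun i => ⟨⟨_, hc i⟩, rfl⟩
  have : IsAlgebraic (Subalgebra.algebraicClosure A E) t :=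
    ⟨p, fun e => hG (by rw [e, map_zero]), by rw [aeval_def, ← eval_map]; exact ht⟩
  exact this.restrictScalars A

lemma hens_acl (h : Hens w ⊤) (A : Subring E) : Hens w (acl A) := fun G hc hG h0 h1 => by
  obtain ⟨t, -, ht, ht'⟩ := h G (fun _ => trivial) hG h0 h1
  exact ⟨t, acl_root (fun e => by simp [e] at h1) hc ht, ht, ht'⟩

/-- Near a point where all integer polynomials are units, leading terms do not change. -/
lemma rv_aeval {z x : E} (hz : ∀ f : ℤ[X], f ≠ 0 → w (aeval z f) = 1) (hx : w (x - z) < 1)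
    (f : ℤ[X]) : Rv w (aeval z f) (aeval x f) := by
  by_cases hf : f = 0
  · simp [hf, Rv.refl]
  have h1 : w z = 1 := by simpa using hz X X_ne_zero
  have := cmp (w := w) (p₀ := f.map (algebraMap ℤ E)) (p := f.map (algebraMap ℤ E)) (b := z)
    (b' := x) one_ne_zero (fun i => by simpa [h1] using val_int_le (f.coeff i))
    (fun i => by simp) (Or.inr (by rwa [h1]))
  rw [eval_map_algebraMap, eval_map_algebraMap] at this
  exact Or.inr (by rwa [hz f hf])

end acl

/-- The system `P` has a solution with first coordinate `x`. -/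
def Sol {m n : ℕ} (P : Fin m → MvPolynomial (Fin (n + 1)) ℤ) {L : Type} [CommRing L] (x : L) :
    Prop :=
  ∃ y : Fin n → L, ∀ j, MvPolynomial.aeval (Fin.cons x y : Fin (n + 1) → L) (P j) = 0

lemma hom_aeval {A B : Type} [CommRing A] [CommRing B] (φ : A →+* B) {n : ℕ} (x : A)
    (y : Fin n → A) (p : MvPolynomial (Fin (n + 1)) ℤ) :
    φ (MvPolynomial.aeval (Fin.cons x y : Fin (n + 1) → A) p) =
      MvPolynomial.aeval (Fin.cons (φ x) (fun i => φ (y i)) : Fin (n + 1) → B) p := by
  have := MvPolynomial.comp_aeval_apply (Fin.cons x y : Fin (n + 1) → A) φ.toIntAlgHom p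
  refine this.trans ?_
  congr 2
  ext i
  refine Fin.cases ?_ (fun i => ?_) i <;> simp

lemma hom_aeval' {A B : Type} [CommRing A] [CommRing B] (φ : A →+* B) (x : A) (f : ℤ[X]) :
    φ (aeval x f) = aeval (φ x) f := (aeval_algHom_apply φ.toIntAlgHom x f).symm

variable {m n : ℕ} {P : Fin m → MvPolynomial (Fin (n + 1)) ℤ}

lemma Sol.map {A B : Type} [CommRing A] [CommRing B] (φ : A →+* B) {x : A} (h : Sol P x) :
    Sol P (φ x) := by
  obtain ⟨y, hy⟩ := h
  exact ⟨fun i => φ (y i), fun j => by rw [← hom_aeval, hy, map_zero]⟩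

variable {K : ℕ → Type} [∀ k, NormedField (K k)]

lemma los {x : ∀ k, K k} : Sol P (mk x) ↔ ∀ᶠ k in uf, Sol P (x k) := by
  have key : ∀ (y : Fin n → ∀ k, K k) (j : Fin m),
      MvPolynomial.aeval (Fin.cons (mk x) (fun i => mk (y i)) : Fin (n + 1) → UP K) (P j) = 0 ↔
      ∀ᶠ k in uf, MvPolynomial.aeval (Fin.cons (x k) (fun i => y i k) : Fin (n + 1) → K k)
        (P j) = 0 := fun y j => by
    rw [← hom_aeval, mk_zero]
    refine eventually_congr (Eventually.of_forall fun k => ?_)
    rw [← show _ = MvPolynomial.aeval (Fin.cons (x k) (fun i => y i k) : Fin (n + 1) → K k) (P j)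
      from hom_aeval (Pi.evalRingHom K k) x y (P j)]
    rfl
  constructor
  · rintro ⟨y, hy⟩
    choose Y hY using fun i => mk_surj (y i)
    obtain rfl : y = fun i => mk (Y i) := funext fun i => (hY i).symm
    filter_upwards [eventually_all.2 fun j => (key Y j).1 (hy j)] with k hk
    exact ⟨_, hk⟩
  · intro h
    choose y hy using fun k => exists_imp (id : Sol P (x k) → Sol P (x k))
    refine ⟨fun i => mk fun k => y k i, fun j => (key (fun i k => y k i) j).2 ?_⟩
    filter_upwards [h] with k hk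
    exact hy k hk j

lemma mk_aeval (x : ∀ k, K k) (f : ℤ[X]) : aeval (mk x) f = mk fun k => aeval (x k) f := by
  rw [← hom_aeval']
  congr 1
  ext k
  exact hom_aeval' (Pi.evalRingHom K k) x f

theorem not_frontier [∀ k, CompleteSpace (K k)] (z : ∀ k, K k)
    (hz : ∀ f : ℤ[X], f ≠ 0 → ∀ᶠ k in uf, aeval (z k) f ≠ 0) :
    ¬ ∀ᶠ k in uf, z k ∈ frontier {x : K k | Sol P x} := by
  intro h
  haveI := countable_poly
  haveI := countable_mv (n + 1)
  obtain ⟨e, he⟩ := exists_surjective_nat ℤ[X]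
  set R : ℕ → ℝ := fun k => 2 + ∑ i ∈ Finset.range (k + 1),
    (‖aeval (z k) (e i)‖ + ‖aeval (z k) (e i)‖⁻¹) with hRdef
  have hR : ∀ k, 2 ≤ R k := fun k => le_add_of_nonneg_right (by positivity)
  have hle : ∀ i k, i ≤ k → ‖aeval (z k) (e i)‖ + ‖aeval (z k) (e i)‖⁻¹ ≤ R k := fun i k hik =>
    le_add_of_nonneg_of_le (by norm_num) (Finset.single_le_sum
      (f := fun i => ‖aeval (z k) (e i)‖ + ‖aeval (z k) (e i)‖⁻¹) (fun _ _ => by positivity)
      (Finset.mem_range.2 (by omega)))
  have hw : ∀ f : ℤ[X], f ≠ 0 → (bdd K hR).valuation (aeval (mk z) f) = 1 := fun f hf => by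
    obtain ⟨i, rfl⟩ := he f
    rw [mk_aeval]
    refine le_antisymm ((val_le hR).2 ⟨1, ?_⟩) (not_lt.1 fun hlt => ?_)
    · filter_upwards [uf_ge i] with k hk
      rw [pow_one]
      exact le_trans (le_add_of_nonneg_right (by positivity)) (hle i k hk)
    · obtain ⟨k, h1, h2, h3⟩ := ((uf_ge i).and ((hz _ hf).and ((val_lt hR).1 hlt 2))).exists
      have h4 := norm_pos_iff.2 h2
      have h5 : ‖aeval (z k) (e i)‖⁻¹ ≤ R k := le_trans (le_add_of_nonneg_left h4.le) (hle i k h1)
      rw [inv_le_iff_one_le_mul₀' h4] at h5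
      have := hR k
      nlinarith
  have h0 : Res0 (bdd K hR).valuation := fun n hn => by
    simpa using hw (n : ℤ[X]) (Nat.cast_ne_zero.2 hn)
  have hnear : ∀ S : ∀ k, Set (K k), (∀ᶠ k in uf, z k ∈ closure (S k)) →
      ∃ x : ∀ k, K k, (∀ᶠ k in uf, x k ∈ S k) ∧
        ∀ f : ℤ[X], Rv (bdd K hR).valuation (aeval (mk z) f) (aeval (mk x) f) := fun S hS => by
    choose x hx using fun k => exists_imp fun hk : z k ∈ closure (S k) =>
      Metric.mem_closure_iff.1 hk (R k ^ k)⁻¹ (by have := hR k; positivity)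
    refine ⟨x, hS.mono fun k hk => (hx k hk).1, rv_aeval hw ?_⟩
    rw [← map_sub, val_lt]
    intro C
    filter_upwards [hS, uf_ge C] with k hk hC
    have h1 := (hx k hk).2
    have h2 := hR k
    rw [dist_comm, dist_eq_norm] at h1
    calc ‖(x - z) k‖ * R k ^ C ≤ (R k ^ k)⁻¹ * R k ^ k := by
          gcongr
          · exact h1.le
          · linarith
      _ = 1 := inv_mul_cancel₀ (by positivity)
  obtain ⟨x, hx, hx'⟩ := hnear _ (h.mono fun k hk => frontier_subset_closure hk)
  obtain ⟨x', hy, hy'⟩ := hnear (fun k => {x : K k | Sol P x}ᶜ) (h.mono fun k hk => by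
    rw [← frontier_compl] at hk; exact frontier_subset_closure hk)
  obtain ⟨y, hP⟩ := los.2 hx
  set A := (MvPolynomial.aeval (R := ℤ) (Fin.cons (mk x) y : Fin (n + 1) → UP K)).toRingHom.range
  haveI : Countable A := (Set.countable_range _).to_subtype
  have hA : ∀ i, (Fin.cons (mk x) y : Fin (n + 1) → UP K) i ∈ acl A := fun i =>
    le_acl ⟨MvPolynomial.X i, MvPolynomial.aeval_X _ i⟩
  obtain ⟨y', -, hy2⟩ := transfer h0 (hens_acl (hens_up hR) A) (hens_up hR) (sat_up hR)
    (fun b _ => ⟨b, trivial, Rv.refl b⟩) (hA 0) (x' := mk x') trivial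
    (fun f => (hx' f).symm.trans (hy' f)) y (fun i => hA i.succ)
  obtain ⟨k, h1, h2⟩ := (hy.and (los.1 ⟨y', fun j => hy2 _ (hP j)⟩)).exists
  exact h1 h2

end Pool.Agent.MP_28f2cb_lc.H31
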