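import Pool.Agent.MP_28f2cb_lc.H31.Split

/-! The local-global barrier. -/

namespace Pool.Agent.MP_28f2cb_lc.H31

open Polynomial Filter Topology

variable {m n : ℕ} {P : Fin m → MvPolynomial (Fin (n + 1)) ℤ}

lemma sol_special (l : ℕ → ℕ) [∀ k, Fact (l k).Prime] (hl : ∀ᶠ k in uf, k < l k)
    (hsp : ∀ h : ℤ[X], ∀ᶠ k in uf, (h.map (algebraMap ℤ ℚ_[l k])).Splits) (c : ℕ) (hc : c ≠ 0)
    (s : ∀ k, ℚ_[l k]) (hs : ∀ k, s k ≠ 0) (hq : ∀ᶠ k in uf, ‖c * s k ^ k.factorial‖ ≠ 1)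
    {x : ℝ} (hx : ∀ f : ℤ[X], f ≠ 0 → aeval x f ≠ 0) (h : Sol P x) :
    ∀ᶠ k in uf, Sol P (c * s k ^ k.factorial) := by
  have hR : ∀ k : ℕ, (2 : ℝ) ≤ (fun _ => 2) k := fun _ => le_rfl
  have small : ∀ y : ∀ k, ℚ_[l k], (∀ᶠ k in uf, ‖y k‖ < 1) →
      (bdd (fun k => ℚ_[l k]) hR).valuation (mk y) < 1 := fun y hy => by
    rw [val_lt]
    intro C
    filter_upwards [hy, hl, uf_ge (2 ^ C)] with k h1 h2 h3
    have h4 := (Padic.norm_le_pow_iff_norm_lt_pow_add_one (y k) (-1)).2 (by simpa using h1)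
    have h5 : (2 : ℝ) ^ C ≤ l k := by exact_mod_cast h3.trans h2.le
    have h6 : (0 : ℝ) < l k := lt_of_lt_of_le (by positivity) h5
    calc ‖y k‖ * 2 ^ C ≤ (l k : ℝ) ^ (-1 : ℤ) * l k := by gcongr
      _ = 1 := by rw [zpow_neg_one, inv_mul_cancel₀ h6.ne']
  have h0 : Res0 (bdd (fun k => ℚ_[l k]) hR).valuation := fun N hN => by
    refine le_antisymm (val_nat_le N) (not_lt.1 fun hlt => ?_)
    rw [← map_natCast mk, val_lt] at hlt
    obtain ⟨k, h1, h2, h3⟩ := ((hlt 1).and (hl.and (uf_ge N))).exists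
    have : ‖(N : ℚ_[l k])‖ = 1 := Padic.norm_natCast_eq_one_iff.2
      (Nat.coprime_of_lt_prime hN (h3.trans_lt h2) Fact.out)
    rw [Pi.natCast_apply, this] at h1
    norm_num at h1
  have hne : ∀ k, (c : ℚ_[l k]) * s k ^ k.factorial ≠ 0 := fun k =>
    mul_ne_zero (Nat.cast_ne_zero.2 hc) (pow_ne_zero _ (hs k))
  have hq0 : mk (fun k => c * s k ^ k.factorial) ≠ 0 := fun e => by
    obtain ⟨k, hk⟩ := (mk_zero.1 e).exists
    exact hne k hk
  refine los.1 (puiseux h0 (hens_up hR) (sat_up hR) (fun f => up_splits f (hsp f)) hq0 ?_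
    (fun j hj => ?_) hx h)
  · rcases uf_or (fun k => ‖c * s k ^ k.factorial‖ < 1) with h1 | h1
    · exact (small _ h1).ne
    · intro e
      have := small (fun k => c * s k ^ k.factorial)⁻¹ (by
        filter_upwards [h1, hq] with k h2 h3
        rw [Pi.inv_apply, norm_inv]
        exact inv_lt_one_of_one_lt₀ (lt_of_le_of_ne (not_lt.1 h2) h3.symm))
      rw [mk_inv, map_inv₀, e, inv_one] at this
      exact lt_irrefl _ this
  · choose τ hτ using fun k => exists_imp (α := ℚ_[l k])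
      (p := ((X ^ j - C (c : ℤ) : ℤ[X]).map (algebraMap ℤ ℚ_[l k])).Splits ∧ j ≤ k)
      (q := fun τ => τ ^ j = c * s k ^ k.factorial) fun hk => by
        obtain ⟨ρ, hρ⟩ := hk.1.exists_eval_eq_zero (by
          rw [Polynomial.map_sub, Polynomial.map_pow, map_X, map_C,
            degree_X_pow_sub_C (Nat.pos_of_ne_zero hj)]
          exact_mod_cast hj)
        obtain ⟨e, he⟩ := Nat.dvd_factorial (Nat.pos_of_ne_zero hj) hk.2
        refine ⟨ρ * s k ^ e, ?_⟩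
        rw [mul_pow, ← pow_mul, mul_comm e, ← he]
        congr 1
        simpa [sub_eq_zero] using hρ
    refine ⟨mk τ, ?_⟩
    rw [← map_pow, mk_eq]
    filter_upwards [hsp (X ^ j - C (c : ℤ)), uf_ge j] with k h1 h2
    exact hτ k ⟨h1, h2⟩

lemma generic_of_ne {L : Type} [Field L] [CharZero L] {z : ℕ → L} (h : ∀ v, ∀ᶠ k in uf, z k ≠ v)
    (f : ℤ[X]) (hf : f ≠ 0) : ∀ᶠ k in uf, aeval (z k) f ≠ 0 := by
  classical
  filter_upwards [(eventually_all_finset (f.aroots L).toFinset).2 fun v _ => h v] with k hk e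
  exact hk (z k) (Multiset.mem_toFinset.2 (mem_aroots.2 ⟨hf, e⟩)) rfl

lemma not_frontier_rat (p : ℕ → ℕ) [∀ k, Fact (p k).Prime] (z : ℕ → ℚ)
    (h : ∀ v, ∀ᶠ k in uf, z k ≠ v) :
    ¬ ∀ᶠ k in uf, (z k : ℚ_[p k]) ∈ frontier {x : ℚ_[p k] | Sol P x} := by
  refine not_frontier (K := fun k => ℚ_[p k]) _ fun f hf => ?_
  filter_upwards [generic_of_ne h f hf] with k hk e
  exact hk ((Rat.castHom ℚ_[p k]).injective ((hom_aeval' _ _ f).trans (e.trans (map_zero _).symm)))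

lemma real_halfline (h : ∀ B : ℝ, ∃ x : ℝ, B < x ∧ Sol P x) : ∃ C : ℝ, ∀ x : ℝ, C < x → Sol P x := by
  have hfin : (frontier {x : ℝ | Sol P x}).Finite := by
    by_contra hinf
    set z := Set.Infinite.natEmbedding _ hinf
    refine not_frontier (K := fun _ => ℝ) (P := P) (fun k => z k) (generic_of_ne fun v => ?_)
      (Eventually.of_forall fun k => (z k).2)
    refine Nat.hyperfilter_le_atTop ?_
    rw [← Nat.cofinite_eq_atTop]
    refine Set.Subsingleton.finite fun a ha b hb => z.injective (Subtype.ext ?_)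
    simp only [ne_eq, Set.mem_compl_iff, Set.mem_ofPred_eq, not_not] at ha hb
    rw [ha, hb]
  obtain ⟨C, hC⟩ := hfin.bddAbove
  refine ⟨C, fun x hx => ?_⟩
  rcases IsPreconnected.subset_or_subset isOpen_interior isOpen_interior
    (disjoint_compl_right.mono interior_subset interior_subset)
    (s := Set.Ioi C) (u := interior {x : ℝ | Sol P x}) (fun y hy => by
      rw [← compl_frontier_eq_union_interior]
      exact fun hy' => absurd (hC hy') (not_le.2 hy)) isPreconnected_Ioi with h1 | h1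
  · exact interior_subset (s := {x : ℝ | Sol P x}) (h1 hx)
  · obtain ⟨y, hy, hy'⟩ := h C
    exact absurd hy' (interior_subset (h1 hy))

/-- Every reduced class inside the class of `a` modulo `N` has arbitrarily large members in `S`. -/
def Thick (S : ℕ → Prop) (a N : ℕ) : Prop :=
  ∀ M b B : ℕ, M ≠ 0 → N ∣ M → b.Coprime M → b ≡ a [MOD N] → ∃ k, B ≤ k ∧ k ≡ b [MOD M] ∧ S k

lemma ramsey {ι : Type} (S : ι → ℕ → Prop) (s : Finset ι) : ∀ a N : ℕ, N ≠ 0 → a.Coprime N →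
    Thick (fun k => ∃ i ∈ s, S i k) a N →
    ∃ i a' N', N' ≠ 0 ∧ a'.Coprime N' ∧ Thick (S i) a' N' := by
  classical
  induction s using Finset.induction_on with
  | empty =>
    intro a N hN ha h
    obtain ⟨k, -, -, i, hi, -⟩ := h N a 0 hN dvd_rfl ha rfl
    simp at hi
  | insert i s _ ih =>
    intro a N hN ha h
    by_cases hi : Thick (S i) a N
    · exact ⟨i, a, N, hN, ha, hi⟩
    unfold Thick at hi
    push Not at hi
    obtain ⟨M₀, b₀, B₀, h1, h2, h3, h4, h5⟩ := hi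
    refine ih b₀ M₀ h1 h3 fun M b B hM hd hb e => ?_
    obtain ⟨k, hk, e', j, hj, hj'⟩ := h M b (max B B₀) hM (h2.trans hd) hb ((e.of_dvd h2).trans h4)
    refine ⟨k, (le_max_left _ _).trans hk, e', j, (Finset.mem_insert.1 hj).resolve_left ?_, hj'⟩
    rintro rfl
    exact h5 k ((le_max_right _ _).trans hk) ((e'.of_dvd hd).trans e) hj'

lemma exists_pow_lt (p : ℕ) [hp : Fact p.Prime] {ε : ℝ} (hε : 0 < ε) :
    ∃ j : ℕ, j ≠ 0 ∧ (p : ℝ) ^ (-j : ℤ) < ε := by
  obtain ⟨j, hj⟩ := PadicInt.exists_pow_neg_lt p hε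
  refine ⟨j + 1, by omega, lt_of_le_of_lt ?_ hj⟩
  exact zpow_le_zpow_right₀ (by exact_mod_cast hp.out.one_le) (by omega)

lemma unit_mem_closure {S : ℕ → Prop} {a N : ℕ} (hN : N ≠ 0) (ha : a.Coprime N) (h : Thick S a N)
    (p : ℕ) [hp : Fact p.Prime] (hpN : ¬ p ∣ N) {D : Set ℚ_[p]} (hD : ∀ k, S k → (k : ℚ_[p]) ∈ D)
    {u : ℚ_[p]} (hu : ‖u‖ = 1) : u ∈ closure D := by
  refine Metric.mem_closure_iff.2 fun ε hε => ?_
  obtain ⟨j, hj, hj'⟩ := exists_pow_lt p hε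
  set u' : ℤ_[p] := ⟨u, hu.le⟩
  have h1 := u'.appr_spec j
  have hco : (p ^ j).Coprime N := ((Nat.Prime.coprime_iff_not_dvd hp.out).2 hpN).pow_left j
  obtain ⟨b, e1, e2⟩ := Nat.chineseRemainder hco (u'.appr j) a
  have h2 : ¬ p ∣ u'.appr j := fun hd => by
    have h3 : (p : ℤ_[p]) ∣ u' - u'.appr j := (dvd_pow_self _ hj).trans (Ideal.mem_span_singleton.1 h1)
    have h4 : (p : ℤ_[p]) ∣ u' := by simpa using h3.add (Nat.cast_dvd_cast hd)
    exact ((PadicInt.norm_lt_one_iff_dvd _).2 h4).ne hu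
  have hb : b.Coprime (p ^ j * N) := by
    refine Nat.Coprime.mul_right ?_ ?_
    · rw [Nat.Coprime, e1.gcd_eq]
      exact (((Nat.Prime.coprime_iff_not_dvd hp.out).2 h2).pow_left j).symm
    · rw [Nat.Coprime, e2.gcd_eq]
      exact ha
  obtain ⟨k, -, e3, hk⟩ := h (p ^ j * N) b 0 (mul_ne_zero (pow_ne_zero _ hp.out.ne_zero) hN)
    (dvd_mul_left _ _) hb e2
  refine ⟨k, hD k hk, lt_of_le_of_lt ?_ hj'⟩
  have h5 : ((p : ℤ_[p]) ^ j) ∣ (u'.appr j : ℤ_[p]) - k := by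
    have := Int.cast_dvd_cast (α := ℤ_[p]) _ _ ((e3.of_mul_right N).trans e1).dvd
    simpa using this
  have h6 : ((p : ℤ_[p]) ^ j) ∣ u' - k := by simpa using (Ideal.mem_span_singleton.1 h1).add h5
  have := (PadicInt.norm_le_pow_iff_mem_span_pow _ j).2 (Ideal.mem_span_singleton.2 h6)
  rwa [dist_eq_norm]

lemma tendsto_pow_factorial (p : ℕ) [hp : Fact p.Prime] (u : ℕ → ℚ_[p])
    (hu : ∀ᶠ k in uf, ‖u k‖ = 1) : Tendsto (fun k => u k ^ k.factorial) uf (𝓝 1) := by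
  refine Metric.tendsto_nhds.2 fun ε hε => ?_
  obtain ⟨j, -, hj'⟩ := exists_pow_lt p hε
  filter_upwards [hu, uf_ge (p ^ j).totient] with k h1 h2
  refine lt_of_le_of_lt ?_ hj'
  set u' : ℤ_[p] := ⟨u k, h1.le⟩
  obtain ⟨v, hv⟩ := ((PadicInt.isUnit_iff (z := u')).2 h1).map (PadicInt.toZModPow j)
  obtain ⟨e, he⟩ := Nat.dvd_factorial (Nat.totient_pos.2 (pow_pos hp.out.pos j)) h2
  have : u' ^ k.factorial - 1 ∈ RingHom.ker (PadicInt.toZModPow (p := p) j) := by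
    rw [RingHom.mem_ker, map_sub, map_pow, ← hv, ← Units.val_pow_eq_pow_val, he, pow_mul,
      ZMod.pow_totient]
    simp
  rw [PadicInt.ker_toZModPow, ← PadicInt.norm_le_pow_iff_mem_span_pow] at this
  rwa [dist_eq_norm]

lemma exists_zpow_mem {l l' : ℕ} (hl : l.Prime) (hl' : l'.Prime) (hne : l ≠ l') {e : ℕ}
    (he : e ≠ 0) {s t : ℝ} (hs : 0 < s) (hst : s < t) :
    ∃ a b : ℤ, s < ((l : ℝ) ^ a * (l' : ℝ) ^ b) ^ e ∧ ((l : ℝ) ^ a * (l' : ℝ) ^ b) ^ e < t := by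
  have h1 : (1 : ℝ) < l := by exact_mod_cast hl.one_lt
  have h2 : (1 : ℝ) < l' := by exact_mod_cast hl'.one_lt
  have he' : (0 : ℝ) < e := by positivity
  have hirr : Irrational (Real.log l / Real.log l') := by
    rintro ⟨x, hx⟩
    have hx0 : 0 < x := by
      have : (0 : ℝ) < x := hx ▸ div_pos (Real.log_pos h1) (Real.log_pos h2)
      exact_mod_cast this
    rw [Rat.cast_def, div_eq_div_iff (by positivity) (Real.log_pos h2).ne',
      ← Int.natAbs_of_nonneg (Rat.num_pos.2 hx0).le, Int.cast_natCast, mul_comm (Real.log l),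
      ← Real.log_pow, ← Real.log_pow] at hx
    have h3 := Real.log_injOn_pos (by simp; positivity) (by simp; positivity) hx
    have h4 : l' ^ x.num.natAbs = l ^ x.den := by exact_mod_cast h3
    exact hne ((Nat.prime_dvd_prime_iff_eq hl hl').1
      (hl.dvd_of_dvd_pow (h4 ▸ dvd_pow_self l x.den_ne_zero)))
  obtain ⟨z, hz, hz'⟩ := (dense_addSubgroupClosure_pair_iff.2 hirr).exists_between
    (div_lt_div_of_pos_right (Real.log_lt_log hs hst) he')
  obtain ⟨a, b, rfl⟩ := AddSubgroup.mem_closure_pair.1 hz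
  have hpos : 0 < ((l : ℝ) ^ a * (l' : ℝ) ^ b) ^ e := by positivity
  have hlog : Real.log (((l : ℝ) ^ a * (l' : ℝ) ^ b) ^ e) =
      (a • Real.log l + b • Real.log l') * e := by
    rw [Real.log_pow, Real.log_mul (by positivity) (by positivity), Real.log_zpow, Real.log_zpow]
    simp [mul_comm]
  refine ⟨a, b, ?_, ?_⟩
  · rw [← Real.log_lt_log_iff hs hpos, hlog]
    exact (div_lt_iff₀ he').1 hz'.1
  · rw [← Real.log_lt_log_iff hpos (hs.trans hst), hlog]
    exact (lt_div_iff₀ he').1 hz'.2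

/-- Solubility at every place. -/
def Loc (P : Fin m → MvPolynomial (Fin (n + 1)) ℤ) (q : ℚ) : Prop :=
  Sol P (q : ℝ) ∧ ∀ (p : ℕ) [Fact p.Prime], Sol P (q : ℚ_[p])

lemma splits_congr {p l : ℕ} [Fact p.Prime] [Fact l.Prime] (e : p = l) {h : ℤ[X]}
    (hs : (h.map (algebraMap ℤ ℚ_[l])).Splits) : (h.map (algebraMap ℤ ℚ_[p])).Splits := by
  subst e; exact hs

lemma norm_prime {p l : ℕ} [hp : Fact p.Prime] [hl : Fact l.Prime] (h : p ≠ l) :
    ‖(l : ℚ_[p])‖ = 1 := Padic.norm_natCast_eq_one_iff.2 ((Nat.coprime_primes hp.out hl.out).2 h)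

lemma dvd_den {l l' c e : ℕ} [hl : Fact l.Prime] [Fact l'.Prime] (hne : l ≠ l') (hc0 : c ≠ 0)
    (hc : c < l) (he : e ≠ 0) {α : ℤ} (hα : α < 0) (β : ℤ) :
    l ∣ ((c : ℚ) * ((l : ℚ) ^ α * (l' : ℚ) ^ β) ^ e).den := by
  by_contra hn
  have h1 := Padic.norm_rat_le_one hn
  have h2 : ‖(c : ℚ_[l])‖ = 1 := Padic.norm_natCast_eq_one_iff.2
    (Nat.coprime_of_lt_prime hc0 hc hl.out)
  have h3 : (1 : ℝ) < l := by exact_mod_cast hl.out.one_lt
  have h4 : 1 < ((l : ℝ) ^ (-α)) ^ e := one_lt_pow₀ (one_lt_zpow₀ h3 (by omega)) he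
  simp [h2, norm_prime hne] at h1 h4
  exact absurd h1 (not_le.2 h4)

lemma exists_dvd_den {l l' c e : ℕ} [hl : Fact l.Prime] [hl' : Fact l'.Prime] (hll : l < l')
    (hc0 : c ≠ 0) (hc : c < l) (he : e ≠ 0) {α β : ℤ} (h1 : 1 < ((l : ℝ) ^ α * (l' : ℝ) ^ β) ^ e)
    (h2 : ((l : ℝ) ^ α * (l' : ℝ) ^ β) ^ e < l) :
    ∃ p : ℕ, p.Prime ∧ l ≤ p ∧ p ∣ ((c : ℚ) * ((l : ℚ) ^ α * (l' : ℚ) ^ β) ^ e).den := by
  by_cases hα : α < 0
  · exact ⟨l, hl.out, le_rfl, dvd_den hll.ne hc0 hc he hα β⟩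
  by_cases hβ : β < 0
  · refine ⟨l', hl'.out, hll.le, ?_⟩
    rw [mul_comm ((l : ℚ) ^ α)]
    exact dvd_den hll.ne' hc0 (hc.trans hll) he hβ α
  exfalso
  have h3 : (1 : ℝ) ≤ l := by exact_mod_cast hl.out.one_le
  have h4 : (l : ℝ) ≤ l' := by exact_mod_cast hll.le
  have h5 : (1 : ℝ) ≤ (l : ℝ) ^ α := one_le_zpow₀ h3 (not_lt.1 hα)
  have h6 : (1 : ℝ) ≤ (l' : ℝ) ^ β := one_le_zpow₀ (h3.trans h4) (not_lt.1 hβ)
  have h7 : (l : ℝ) ≤ (l : ℝ) ^ α * (l' : ℝ) ^ β := by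
    by_cases h8 : α = 0
    · have h9 : β ≠ 0 := fun h9 => by simp [h8, h9] at h1
      have := zpow_le_zpow_right₀ (h3.trans h4) (show 1 ≤ β by omega)
      rw [zpow_one] at this
      nlinarith
    · have := zpow_le_zpow_right₀ h3 (show 1 ≤ α by omega)
      rw [zpow_one] at this
      nlinarith
  exact absurd h2 (not_lt.2 (h7.trans (le_self_pow₀ (h3.trans h7) he)))

theorem dense_of_thick {a N : ℕ} (hN : N ≠ 0) (ha : a.Coprime N)
    (h : Thick (fun k => Loc P k) a N) :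
    ∃ C : ℝ, ∀ (s t : ℝ) (B : ℕ), C ≤ s → s < t → ∃ q : ℚ, s < q ∧ q < t ∧
      (∃ l : ℕ, l.Prime ∧ B < l ∧ l ∣ q.den) ∧ Loc P q := by
  choose r hr hr' hr'' using fun B => h N a B hN dvd_rfl ha rfl
  obtain ⟨C, hC⟩ := real_halfline (P := P) fun B => by
    obtain ⟨k, hk⟩ := exists_nat_gt B
    exact ⟨r k, hk.trans_le (by exact_mod_cast hr k), by simpa using (hr'' k).1⟩
  obtain ⟨x, hx, hxC, -⟩ := (Algebraic.countable ℤ ℝ).dense_compl ℝ |>.exists_between (lt_add_one C)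
  have hx' : ∀ f : ℤ[X], f ≠ 0 → aeval x f ≠ 0 := fun f hf e => hx ⟨f, hf, e⟩
  obtain ⟨c, hc0, hc, hcf⟩ : ∃ c : ℕ, c ≠ 0 ∧ Loc P c ∧
      ∀ (p : ℕ) [Fact p.Prime], ((c : ℚ) : ℚ_[p]) ∉ frontier {x : ℚ_[p] | Sol P x} := by
    by_contra hn
    push Not at hn
    choose p hp hp' using fun k => hn (r (k + 1)) (by have := hr (k + 1); omega) (hr'' _)
    refine not_frontier_rat p (fun k => r (k + 1)) (fun v => ?_) (Eventually.of_forall hp')
    obtain ⟨k₀, hk₀⟩ := exists_nat_gt v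
    filter_upwards [uf_ge k₀] with k hk e
    have := hr (k + 1)
    rw [← e] at hk₀
    have : r (k + 1) < k₀ := by exact_mod_cast hk₀
    omega
  have hc1 : (0 : ℝ) < c := by positivity
  refine ⟨max C c, fun s t B hs hst => ?_⟩
  have hcs : (c : ℝ) ≤ s := (le_max_right _ _).trans hs
  obtain ⟨l, _, hl₀, hsp⟩ := exists_split_seq fun k => k + B + c + ⌈t⌉₊
  have hl : ∀ k, k < l k := fun k => by have := hl₀ k; omega
  obtain ⟨l', _, hl', hsp'⟩ := exists_split_seq l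
  choose α β h1 h2 using fun k => exists_zpow_mem (Fact.out : (l k).Prime) (Fact.out : (l' k).Prime)
    (hl' k).ne k.factorial_ne_zero (div_pos (hc1.trans_le hcs) hc1) (div_lt_div_of_pos_right hst hc1)
  set u : ℕ → ℚ := fun k => (l k : ℚ) ^ α k * (l' k : ℚ) ^ β k with hu
  set q : ℕ → ℚ := fun k => c * u k ^ k.factorial with hq
  have hqs : ∀ k, s < q k := fun k => by
    have := (div_lt_iff₀' hc1).1 (h1 k)
    simpa [hq, hu] using this
  have hqt : ∀ k, q k < t := fun k => by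
    have := (lt_div_iff₀' hc1).1 (h2 k)
    simpa [hq, hu] using this
  by_contra hn
  simp only [not_exists (p := fun q : ℚ => _), not_and] at hn
  have hbad : ∀ k, ∃ p : ℕ, ∃ _ : Fact p.Prime, ¬ Sol P (q k : ℚ_[p]) := fun k => by
    by_contra hk
    push Not at hk
    have h3 := hl₀ k
    have h4 : t / c ≤ l k := by
      have h5 : (1 : ℝ) ≤ c := by exact_mod_cast Nat.pos_of_ne_zero hc0
      have h6 : (⌈t⌉₊ : ℝ) ≤ l k := by exact_mod_cast (show ⌈t⌉₊ ≤ l k by omega)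
      exact (div_le_self (by linarith) h5).trans ((Nat.le_ceil t).trans h6)
    obtain ⟨p', h5, h6, h7⟩ := exists_dvd_den (hl' k) hc0 (by omega) k.factorial_ne_zero
      (((one_le_div hc1).2 hcs).trans_lt (h1 k)) ((h2 k).trans_le h4)
    exact hn _ (hqs k) (hqt k) ⟨p', h5, by omega, h7⟩
      ⟨hC _ (((le_max_left _ _).trans hs).trans_lt (hqs k)), fun p hp => hk p hp⟩
  choose p hp hbad using hbad
  have hun : ∀ (p : ℕ) [Fact p.Prime] (k : ℕ), p ≠ l k → p ≠ l' k → ‖(u k : ℚ_[p])‖ = 1 :=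
    fun p _ k e1 e2 => by simp [hu, norm_prime e1, norm_prime e2]
  have hlim : ∀ (p : ℕ) [Fact p.Prime], Tendsto (fun k => (q k : ℚ_[p])) uf (𝓝 ((c : ℚ) : ℚ_[p])) :=
    fun p _ => by
      have := (tendsto_pow_factorial p (fun k => u k) (by
        filter_upwards [uf_ge p] with k hk
        have h3 : k < l k := hl k
        have h4 := hl' k
        exact hun p k (by omega) (by omega))).const_mul (c : ℚ_[p])
      simpa [hq] using this
  have hfix : ∀ᶠ k in uf, ¬ p k ∣ c * N := by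
    have : ∀ᶠ k in uf, ∀ p' ∈ (c * N).primeFactors, ∀ _ : Fact p'.Prime, Sol P (q k : ℚ_[p']) := by
      rw [eventually_all_finset]
      intro p' hp'
      haveI := Fact.mk (Nat.prime_of_mem_primeFactors hp')
      have h3 : ((c : ℚ) : ℚ_[p']) ∈ interior {x : ℚ_[p'] | Sol P x} := by
        by_contra h4
        exact hcf p' ⟨subset_closure (hc.2 p'), h4⟩
      filter_upwards [hlim p' (mem_interior_iff_mem_nhds.1 h3)] with k hk _
      exact hk
    filter_upwards [this] with k hk hd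
    exact hbad k (hk _ (Nat.mem_primeFactors.2 ⟨(hp k).out, hd, mul_ne_zero hc0 hN⟩) _)
  rcases uf_or (fun k => ‖(q k : ℚ_[p k])‖ = 1) with h3 | h3
  · refine not_frontier_rat (P := P) p q (fun v => ?_) ?_
    · by_cases hv : v = c
      · refine Eventually.of_forall fun k e => ?_
        have := hcs.trans_lt (hqs k)
        rw [e, hv] at this
        simp at this
      · filter_upwards [(hlim 2).eventually_ne (b₂ := (v : ℚ_[2]))
          (fun e => hv (by exact_mod_cast e.symm))] with k hk e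
        exact hk (by rw [e])
    · filter_upwards [h3, hfix] with k h4 h5
      exact ⟨unit_mem_closure hN ha h (p k) (fun hd => h5 (hd.mul_left c))
        (fun j hj => by simpa using hj.2 (p k)) h4, fun hi => hbad k
          (interior_subset (s := {x : ℚ_[p k] | Sol P x}) hi)⟩
  · have h4 : ∀ᶠ k in uf, p k = l k ∨ p k = l' k := by
      filter_upwards [h3, hfix] with k h4 h5
      by_contra h6
      push Not at h6
      have h7 : ‖(c : ℚ_[p k])‖ = 1 := Padic.norm_natCast_eq_one_iff.2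
        ((Nat.Prime.coprime_iff_not_dvd (hp k).out).2 fun hd => h5 (hd.mul_right N))
      exact h4 (by simp [hq, h7, hun (p k) k h6.1 h6.2])
    obtain ⟨k, hk⟩ := (sol_special (P := P) p
      (h4.mono fun k hk => by
        have h5 : k < l k := hl k
        have h6 := hl' k
        omega)
      (fun f => by
        filter_upwards [h4, hsp f, hsp' f] with k h5 h6 h7
        exact h5.elim (fun e => splits_congr e h6) fun e => splits_congr e h7)
      c hc0 (fun k => (u k : ℚ_[p k])) (fun k => by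
        have h5 := (Fact.out : (l k).Prime).pos
        have h6 := (Fact.out : (l' k).Prime).pos
        exact Rat.cast_ne_zero.2 (by positivity))
      (h3.mono fun k hk => by simpa [hq] using hk) hx' (hC x hxC)).exists
    exact hbad k (by simpa [hq] using hk)

theorem barrier {r : ℕ} (P : Fin r → Fin m → MvPolynomial (Fin (n + 1)) ℤ) {a N : ℕ} (hN : N ≠ 0)
    (ha : a.Coprime N) (h : Thick (fun k => ∃ i, Loc (P i) k) a N) :
    ∃ C : ℝ, ∀ (s t : ℝ) (B : ℕ), C ≤ s → s < t → ∃ q : ℚ, s < q ∧ q < t ∧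
      (∃ l : ℕ, l.Prime ∧ B < l ∧ l ∣ q.den) ∧ ∃ i, Loc (P i) q := by
  obtain ⟨i, a', N', h1, h2, h3⟩ := ramsey (fun i k => Loc (P i) k) Finset.univ a N hN ha
    (by simpa using h)
  obtain ⟨C, hC⟩ := dense_of_thick h1 h2 h3
  refine ⟨C, fun s t B hs hst => ?_⟩
  obtain ⟨q, h4, h5, h6, h7⟩ := hC s t B hs hst
  exact ⟨q, h4, h5, h6, i, h7⟩

end Pool.Agent.MP_28f2cb_lc.H31
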