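import Pool.Agent.MP_28f2cb_lc.H31.Frontier

/-! A generically soluble system is soluble at a very divisible point of a large valued field. -/

namespace Pool.Agent.MP_28f2cb_lc.H31

open Polynomial

variable {E : Type} [Field E] {Γ : Type} [LinearOrderedCommGroupWithZero Γ] {w : Valuation E Γ}
variable {m n : ℕ} {P : Fin m → MvPolynomial (Fin (n + 1)) ℤ}

lemma sum_ne_zero {ι : Type} {s : Finset ι} {f : ι → E} (hne : s.Nonempty)
    (h0 : ∀ i ∈ s, f i ≠ 0) (hinj : ∀ i ∈ s, ∀ j ∈ s, w (f i) = w (f j) → i = j) :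
    ∑ i ∈ s, f i ≠ 0 := by
  classical
  obtain ⟨j, hj, hmax⟩ := s.exists_max_image (fun i => w (f i)) hne
  have := w.map_sum_eq_of_lt (f := f) hj fun i hi => by
    rw [Finset.mem_sdiff, Finset.mem_singleton] at hi
    exact lt_of_le_of_ne (hmax i hi.1) fun e => hi.2 (hinj i hi.1 j hj e)
  intro e
  rw [e, map_zero] at this
  exact h0 j hj (w.zero_iff.1 this.symm)

lemma trans_of_val (h0 : Res0 w) {q : E} (hq0 : q ≠ 0) (hq : w q ≠ 1) (f : ℤ[X]) (hf : f ≠ 0) :
    aeval q f ≠ 0 := by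
  haveI := h0.charZero
  rw [aeval_def, eval₂_eq_sum, sum_def]
  refine sum_ne_zero (w := w) (support_nonempty.2 hf) (fun i hi => ?_) fun i hi j hj e => ?_
  · exact mul_ne_zero (by simpa using mem_support_iff.1 hi) (pow_ne_zero _ hq0)
  · simp only [map_mul, algebraMap_int_eq, eq_intCast, h0.int (mem_support_iff.1 hi),
      h0.int (mem_support_iff.1 hj), one_mul, map_pow] at e
    exact pow_right_injective₀ (w.pos_iff.2 hq0) hq e

lemma hens_of_algClosed [IsAlgClosed E] : Hens w ⊤ := fun G _ _ h0 h1 => by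
  by_cases hz : G.eval 0 = 0
  · exact ⟨0, trivial, hz, by simp⟩
  by_contra hn
  push Not at hn
  have hG : G ≠ 0 := fun e => by simp [e] at h1
  have := (IsAlgClosed.splits G).eval_derivative_eq_eval_mul_sum hz
  rw [← coeff_zero_eq_eval_zero, ← coeff_zero_eq_eval_zero, coeff_derivative] at this
  have h2 : w (G.roots.map fun z => 1 / (0 - z)).sum ≤ 1 := by
    refine Multiset.sum_induction (fun x => w x ≤ 1) _ (fun _ _ => w.map_add_le) (by simp) ?_
    intro x hx
    obtain ⟨z, hz', rfl⟩ := Multiset.mem_map.1 hx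
    have := hn z trivial ((mem_roots hG).1 hz')
    simpa using inv_le_one_of_one_le₀ this
  have h3 := congrArg w this
  simp only [zero_add, Nat.cast_zero, mul_one, h1, map_mul] at h3
  exact absurd h3 (mul_lt_one_of_lt_of_le h0 h2).ne'

lemma near_root [IsAlgClosed E] (h0 : Res0 w) {h : ℤ[X]} (hh : h ≠ 0) {u : E}
    (hu : w (aeval u h) < 1) : ∃ α : E, aeval α h = 0 ∧ w (α - u) < 1 := by
  haveI := h0.charZero
  by_contra hn
  push Not at hn
  have hne : h.map (algebraMap ℤ E) ≠ 0 :=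
    (Polynomial.map_ne_zero_iff (algebraMap ℤ E).injective_int).2 hh
  rw [← eval_map_algebraMap, (IsAlgClosed.splits _).eval_eq_prod_roots, map_mul,
    leadingCoeff_map_of_injective (algebraMap ℤ E).injective_int, algebraMap_int_eq, eq_intCast,
    h0.int (leadingCoeff_ne_zero.2 hh), one_mul] at hu
  refine absurd hu (not_lt.2 ?_)
  refine Multiset.prod_induction (fun x => 1 ≤ w x) _ (fun a b ha hb => ?_) (by simp) ?_
  · rw [map_mul]; exact one_le_mul ha hb
  · intro x hx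
    obtain ⟨z, hz, rfl⟩ := Multiset.mem_map.1 hx
    rw [w.map_sub_swap]
    refine hn z ?_
    rw [← eval_map_algebraMap]
    exact (mem_roots hne).1 hz

lemma rv_of_alg [IsAlgClosed E] (h0 : Res0 w) {K : Subfield E}
    (hsp : ∀ h : ℤ[X], h ≠ 0 → ∀ α : E, aeval α h = 0 → α ∈ K) {q : E} (hq0 : q ≠ 0)
    (hq : w q ≠ 1) (hτ : ∀ k : ℕ, k ≠ 0 → ∃ τ ∈ K, τ ^ k = q) {b : E} {ι : Type} {S : Finset ι}
    (hS : S.Nonempty) (c : ι → ℤ) (i j : ι → ℕ) (hc : ∀ x ∈ S, c x ≠ 0)
    (hij : ∀ x y, i x = i y → j x = j y → x = y)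
    (hb : ∑ x ∈ S, (c x : E) * q ^ i x * b ^ j x = 0) : ∃ b' ∈ K, Rv w b b' := by
  classical
  haveI := h0.charZero
  by_cases hb0 : b = 0
  · exact ⟨0, K.zero_mem, Or.inl ⟨hb0, rfl⟩⟩
  have hq' := w.pos_iff.2 hq0
  have hb' := w.pos_iff.2 hb0
  have h1 : ∃ (k : ℕ) (e : ℤ), k ≠ 0 ∧ w b ^ k = w q ^ e := by
    by_contra hn
    push Not at hn
    refine sum_ne_zero (w := w) hS (fun x hx => ?_) (fun x hx y hy e => ?_) hb
    · exact mul_ne_zero (mul_ne_zero (by simpa using hc x hx) (pow_ne_zero _ hq0))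
        (pow_ne_zero _ hb0)
    simp only [map_mul, h0.int (hc x hx), h0.int (hc y hy), one_mul, map_pow] at e
    have key : ∀ x y : ι, w q ^ i x * w b ^ j x = w q ^ i y * w b ^ j y → ¬ j y < j x :=
      fun x y e hlt => by
        obtain ⟨k, hk⟩ := Nat.exists_eq_add_of_lt hlt
        refine hn (k + 1) ((i y : ℤ) - i x) (by omega) ?_
        rw [zpow_sub₀ hq'.ne', zpow_natCast, zpow_natCast, eq_div_iff (pow_pos hq' _).ne']
        rw [hk, add_assoc, pow_add, mul_left_comm, mul_comm (w q ^ i y)] at e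
        rw [mul_comm]
        exact mul_left_cancel₀ (pow_pos hb' _).ne' e
    have hj : j x = j y := le_antisymm (not_lt.1 (key x y e)) (not_lt.1 (key y x e.symm))
    rw [hj] at e
    exact hij x y (pow_right_injective₀ hq' hq (mul_right_cancel₀ (pow_pos hb' _).ne' e)) hj
  obtain ⟨k, e, hk, he⟩ := h1
  obtain ⟨τ, hτK, rfl⟩ := hτ k hk
  have hτ0 : τ ≠ 0 := fun e => hq0 (by rw [e, zero_pow hk])
  have hτ1 : w τ ≠ 1 := fun e => hq (by rw [map_pow, e, one_pow])
  have hv : w b = w (τ ^ e) := by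
    rw [map_pow, ← zpow_natCast (w τ), ← zpow_mul, mul_comm, zpow_mul, zpow_natCast] at he
    rw [map_zpow₀]
    exact (pow_left_inj₀ zero_le zero_le hk).1 he
  have hβ : τ ^ e ≠ 0 := zpow_ne_zero _ hτ0
  obtain ⟨u, rfl⟩ : ∃ u, b = u * τ ^ e := ⟨b / τ ^ e, by field_simp⟩
  have hu : w u = 1 := by
    rw [map_mul] at hv
    exact mul_right_cancel₀ (w.ne_zero_iff.2 hβ) (hv.trans (one_mul _).symm)
  set N : ι → ℤ := fun x => k * i x + e * j x with hN
  set h : ℤ → ℤ[X] := fun t => ∑ x ∈ S with N x = t, monomial (j x) (c x) with hh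
  have hne : ∀ t ∈ S.image N, h t ≠ 0 := fun t ht e0 => by
    obtain ⟨x, hx, rfl⟩ := Finset.mem_image.1 ht
    have := congrArg (coeff · (j x)) e0
    simp only [hh, finsetSum_coeff, coeff_zero] at this
    rw [Finset.sum_eq_single_of_mem x (by simp [hx])] at this
    · exact hc x hx (by simpa using this)
    · intro y hy hyx
      rw [coeff_monomial, if_neg]
      intro ej
      have := (Finset.mem_filter.1 hy).2
      simp only [hN, ej, add_left_inj] at this
      exact hyx (hij y x (by exact_mod_cast mul_left_cancel₀ (Int.natCast_ne_zero.2 hk) this) ej)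
  have hsum : ∑ t ∈ S.image N, τ ^ t * aeval u (h t) = 0 := by
    rw [← hb, ← Finset.sum_fiberwise_of_maps_to (g := N) (t := S.image N)
      fun x hx => Finset.mem_image_of_mem N hx]
    refine Finset.sum_congr rfl fun t _ => ?_
    rw [hh, map_sum, Finset.mul_sum]
    refine Finset.sum_congr rfl fun x hx => ?_
    rw [← (Finset.mem_filter.1 hx).2, hN, aeval_monomial]
    simp only [zpow_add₀ hτ0, zpow_mul, zpow_natCast, algebraMap_int_eq, eq_intCast, mul_pow]
    ring
  have : ∃ t ∈ S.image N, w (aeval u (h t)) ≠ 1 := by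
    by_contra hn
    push Not at hn
    refine sum_ne_zero (w := w) (hS.image N) (fun t ht => ?_) (fun s hs t ht e => ?_) hsum
    · exact mul_ne_zero (zpow_ne_zero _ hτ0) fun e => by simpa [e] using hn t ht
    · simp only [map_mul, hn s hs, hn t ht, mul_one, map_zpow₀] at e
      exact zpow_right_injective₀ (w.pos_iff.2 hτ0) hτ1 e
  obtain ⟨t, ht, ht1⟩ := this
  have hle : w (aeval u (h t)) ≤ 1 := by
    rw [← eval_map_algebraMap]
    exact GB.eval (low_le 1) fun i => by simpa [hu] using val_int_le ((h t).coeff i)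
  obtain ⟨α, hα, hα'⟩ := near_root h0 (hne t ht) (lt_of_le_of_ne hle ht1)
  exact ⟨α * τ ^ e, K.mul_mem (hsp _ (hne t ht) α hα) (K.zpow_mem hτK e),
    Rv.mul_right (Or.inr (by rwa [hu])) _⟩

lemma generic_sol {L F : Type} [Field L] [Field F] [IsAlgClosed F] {x : L} {q : F}
    (hx : ∀ f : ℤ[X], f ≠ 0 → aeval x f ≠ 0) (hq : ∀ f : ℤ[X], f ≠ 0 → aeval q f ≠ 0)
    (h : Sol P x) : Sol P q := by
  obtain ⟨y, hy⟩ := h
  have i1 : Function.Injective (aeval x : ℤ[X] →ₐ[ℤ] L).toRingHom :=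
    (injective_iff_map_eq_zero _).2 fun f hf => by_contra fun e => hx f e hf
  have i2 : Function.Injective (aeval q : ℤ[X] →ₐ[ℤ] F).toRingHom :=
    (injective_iff_map_eq_zero _).2 fun f hf => by_contra fun e => hq f e hf
  letI : Algebra (FractionRing ℤ[X]) L := (IsFractionRing.lift i1).toAlgebra
  letI : Algebra (FractionRing ℤ[X]) F := (IsFractionRing.lift i2).toAlgebra
  obtain ⟨M, hM, hle⟩ := Ideal.exists_le_maximal
    (RingHom.ker (MvPolynomial.aeval (R := FractionRing ℤ[X]) y).toRingHom) (RingHom.ker_ne_top _)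
  obtain ⟨z, rfl⟩ := MvPolynomial.eq_vanishingIdeal_singleton_of_isMaximal F hM
  refine ⟨z, fun j => ?_⟩
  set X₀ : MvPolynomial (Fin n) (FractionRing ℤ[X]) :=
    MvPolynomial.C (algebraMap ℤ[X] (FractionRing ℤ[X]) X)
  have e1 := hom_aeval (MvPolynomial.aeval (R := FractionRing ℤ[X]) y).toRingHom X₀
    MvPolynomial.X (P j)
  have e2 := hom_aeval (MvPolynomial.aeval (R := FractionRing ℤ[X]) z).toRingHom X₀
    MvPolynomial.X (P j)
  have e3 : (MvPolynomial.aeval (R := FractionRing ℤ[X]) y).toRingHom X₀ = x :=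
    (MvPolynomial.aeval_C _ _).trans ((IsFractionRing.lift_algebraMap i1 X).trans (aeval_X x))
  have e4 : (MvPolynomial.aeval (R := FractionRing ℤ[X]) z).toRingHom X₀ = q :=
    (MvPolynomial.aeval_C _ _).trans ((IsFractionRing.lift_algebraMap i2 X).trans (aeval_X q))
  have e5 : (fun i => (MvPolynomial.aeval (R := FractionRing ℤ[X]) y).toRingHom
      (MvPolynomial.X i)) = y := funext fun i => MvPolynomial.aeval_X _ i
  have e6 : (fun i => (MvPolynomial.aeval (R := FractionRing ℤ[X]) z).toRingHom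
      (MvPolynomial.X i)) = z := funext fun i => MvPolynomial.aeval_X _ i
  rw [e3, e5, hy j] at e1
  rw [e4, e6] at e2
  rw [← e2]
  exact hle e1 z rfl

lemma puiseux_in [IsAlgClosed E] (h0 : Res0 w) {K : Subfield E} (hH : Hens w K) (hS : Sat w K)
    (hsp : ∀ h : ℤ[X], h ≠ 0 → ∀ α : E, aeval α h = 0 → α ∈ K) {q : E} (hq0 : q ≠ 0)
    (hq : w q ≠ 1) (hτ : ∀ k : ℕ, k ≠ 0 → ∃ τ ∈ K, τ ^ k = q) {L : Type} [Field L] {x : L}
    (hx : ∀ f : ℤ[X], f ≠ 0 → aeval x f ≠ 0) (h : Sol P x) :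
    ∃ y : Fin n → E, (∀ i, y i ∈ K) ∧
      ∀ j, MvPolynomial.aeval (Fin.cons q y : Fin (n + 1) → E) (P j) = 0 := by
  haveI := countable_poly
  set φ := (aeval q : ℤ[X] →ₐ[ℤ] E).toRingHom
  haveI : Countable φ.range := (Set.countable_range _).to_subtype
  haveI : IsAlgClosed (acl φ.range) := IsAlgClosed.of_exists_root _ fun p _ hp => by
    obtain ⟨t, ht⟩ := IsAlgClosed.exists_root (p.map (acl φ.range).subtype)
      (by rw [degree_map]; exact (degree_pos_of_irreducible hp).ne')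
    refine ⟨⟨t, acl_root (Polynomial.map_ne_zero hp.ne_zero)
      (fun i => by rw [coeff_map]; exact (p.coeff i).2) ht⟩, Subtype.ext ?_⟩
    exact (eval₂_at_apply (acl φ.range).subtype _).symm.trans ((eval_map _ _).symm.trans ht)
  have hqF : q ∈ acl φ.range := le_acl ⟨X, aeval_X q⟩
  have hqK : q ∈ K := by
    obtain ⟨τ, h1, h2⟩ := hτ 1 one_ne_zero
    rwa [← h2, pow_one]
  obtain ⟨y, hy⟩ := (generic_sol (q := (⟨q, hqF⟩ : acl φ.range)) hx (fun f hf e =>
    trans_of_val h0 hq0 hq f hf (by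
      have := hom_aeval' (acl φ.range).subtype ⟨q, hqF⟩ f
      rw [e, map_zero] at this
      exact this.symm)) h)
  obtain ⟨y', h1, h2⟩ := transfer h0 (hens_acl hens_of_algClosed φ.range) hH hS (fun b hb => by
    obtain ⟨p, hp, hpb⟩ := mem_acl.1 hb
    obtain ⟨g, rfl⟩ := map_surjective φ.rangeRestrict φ.rangeRestrict_surjective p
    have hg : g ≠ 0 := fun e => hp (by rw [e, Polynomial.map_zero])
    refine rv_of_alg h0 hsp hq0 hq hτ (S := g.support.sigma fun j => (g.coeff j).support)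
      ?_ (fun x => (g.coeff x.1).coeff x.2) (fun x => x.2) (fun x => x.1)
      (fun x hx => mem_support_iff.1 (Finset.mem_sigma.1 hx).2)
      (fun x y e1 e2 => Sigma.ext e2 (heq_of_eq e1)) ?_
    · obtain ⟨j, hj⟩ := support_nonempty.2 hg
      obtain ⟨i, hi⟩ := support_nonempty.2 (mem_support_iff.1 hj)
      exact ⟨⟨j, i⟩, Finset.mem_sigma.2 ⟨hj, hi⟩⟩
    · rw [aeval_def, eval₂_map, eval₂_eq_sum, sum_def] at hpb
      rw [Finset.sum_sigma, ← hpb]
      refine Finset.sum_congr rfl fun j _ => ?_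
      dsimp only
      rw [← Finset.sum_mul]
      congr 1
      change _ = aeval q (g.coeff j)
      rw [aeval_def, eval₂_eq_sum, sum_def]
      rfl) hqF hqK (fun f => Rv.refl _) (fun i => (y i : E)) fun i => (y i).2
  refine ⟨y', h1, fun j => h2 _ ?_⟩
  have := hom_aeval (acl φ.range).subtype ⟨q, hqF⟩ y (P j)
  rw [hy j, map_zero] at this
  exact this.symm

theorem puiseux {K : Type} [Field K] {v : Valuation K Γ} (h0 : Res0 v) (hH : Hens v ⊤)
    (hS : Sat v ⊤) (hsp : ∀ h : ℤ[X], (h.map (algebraMap ℤ K)).Splits) {q : K} (hq0 : q ≠ 0)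
    (hq : v q ≠ 1) (hτ : ∀ k : ℕ, k ≠ 0 → ∃ τ : K, τ ^ k = q) {L : Type} [Field L] {x : L}
    (hx : ∀ f : ℤ[X], f ≠ 0 → aeval x f ≠ 0) (h : Sol P x) : Sol P q := by
  haveI := h0.charZero
  set ι := algebraMap K (AlgebraicClosure K)
  obtain ⟨A, hA, hloc⟩ := IsLocalRing.exists_factor_valuationRing
    (ι.comp v.valuationSubring.subtype)
  have a1 : ∀ x, v x ≤ 1 → A.valuation (ι x) ≤ 1 := fun x hx =>
    (A.valuation_le_one_iff _).2 (hA ⟨x, hx⟩)
  have a2 : ∀ x, v x < 1 → A.valuation (ι x) < 1 := fun x hx => by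
    refine (A.valuation_lt_one_iff ⟨ι x, hA ⟨x, hx.le⟩⟩).1 fun hu => ?_
    have := hloc.map_nonunit ⟨x, hx.le⟩ hu
    rw [← Valuation.integer.integers v |>.valuation_unit this.unit] at hx
    exact lt_irrefl _ hx
  have b1 : ∀ x, A.valuation (ι x) ≤ 1 → v x ≤ 1 := fun x hx => by
    by_contra hn
    have h1 : x ≠ 0 := fun e => hn (by simp [e])
    have := a2 x⁻¹ (by rw [map_inv₀]; exact inv_lt_one_of_one_lt₀ (not_le.1 hn))
    rw [map_inv₀, map_inv₀, inv_lt_one₀ (A.valuation.pos_iff.2 ((map_ne_zero ι).2 h1))] at this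
    exact absurd hx (not_le.2 this)
  have b2 : ∀ x, A.valuation (ι x) < 1 → v x < 1 := fun x hx => by
    by_contra hn
    have h1 : x ≠ 0 := fun e => hn (by simp [e])
    have := a1 x⁻¹ (by rw [map_inv₀]; exact inv_le_one_of_one_le₀ (not_lt.1 hn))
    rw [map_inv₀, map_inv₀, inv_le_one₀ (A.valuation.pos_iff.2 ((map_ne_zero ι).2 h1))] at this
    exact absurd hx (not_lt.2 this)
  have c1 : ∀ x, A.valuation (ι x) = 1 ↔ v x = 1 := fun x =>
    ⟨fun e => le_antisymm (b1 x e.le) (not_lt.1 fun h => (a2 x h).ne e),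
      fun e => le_antisymm (a1 x e.le) (not_lt.1 fun h => (b2 x h).ne e)⟩
  have hlift : ∀ G : (AlgebraicClosure K)[X], (∀ i, G.coeff i ∈ ι.fieldRange) →
      ∃ g : K[X], g.map ι = G := fun G hG => (lifts_iff_coeff_lifts G).2 hG
  have hev : ∀ (g : K[X]) (t : K), (g.map ι).eval (ι t) = ι (g.eval t) := fun g t => by
    rw [eval_map, eval₂_at_apply]
  obtain ⟨y, hy, hy'⟩ := puiseux_in (w := A.valuation) (K := ι.fieldRange) (q := ι q) (P := P)
    (fun k hk => by rw [← map_natCast ι, c1]; exact h0 k hk)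
    (fun G hG h1 h2 h3 => by
      obtain ⟨g, rfl⟩ := hlift G hG
      simp only [coeff_map] at h1 h2 h3
      obtain ⟨t, -, ht, ht'⟩ := hH g (fun _ => trivial) (fun i => b1 _ (h1 i)) (b2 _ h2)
        ((c1 _).1 h3)
      exact ⟨ι t, ⟨t, rfl⟩, by rw [hev, ht, map_zero], a2 _ ht'⟩)
    (fun G hG hn => by
      choose g hg using fun j => hlift (G j) (hG j)
      obtain ⟨t, -, ht⟩ := hS g (fun _ _ => trivial) fun N => by
        obtain ⟨_, ⟨t, rfl⟩, ht⟩ := hn N
        exact ⟨t, trivial, fun j hj => b2 _ (by rw [← hev, hg]; exact ht j hj)⟩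
      exact ⟨ι t, ⟨t, rfl⟩, fun j => by rw [← hg, hev]; exact a2 _ (ht j)⟩)
    (fun f hf α hα => (hsp f).mem_range_of_isRoot
      ((Polynomial.map_ne_zero_iff (algebraMap ℤ K).injective_int).2 hf) (by
        rw [IsRoot, Polynomial.map_map, eval_map, ← hα, aeval_def]
        congr 1))
    ((map_ne_zero ι).2 hq0) (fun e => hq ((c1 q).1 e))
    (fun k hk => by
      obtain ⟨τ, rfl⟩ := hτ k hk
      exact ⟨ι τ, ⟨τ, rfl⟩, (map_pow ι τ k).symm⟩) hx h
  choose z hz using hy
  refine ⟨z, fun j => ι.injective ?_⟩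
  rw [hom_aeval, map_zero, ← hy' j]
  simp only [hz]

end Pool.Agent.MP_28f2cb_lc.H31
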