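import Mathlib

/-! Leading terms in a valued field, Gauss bounds and a perturbed Newton lemma. -/

namespace Pool.Agent.MP_28f2cb_lc.H31

open Polynomial

variable {E : Type} [Field E] {Γ : Type} [LinearOrderedCommGroupWithZero Γ] {w : Valuation E Γ}

/-- `u` and `u'` have the same leading term. -/
def Rv (w : Valuation E Γ) (u u' : E) : Prop := (u = 0 ∧ u' = 0) ∨ w (u' - u) < w u

lemma Rv.refl (u : E) : Rv w u u := by
  by_cases h : u = 0
  · exact Or.inl ⟨h, h⟩
  · right; simpa using (w.pos_iff.2 h)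

lemma Rv.val {u u' : E} (h : Rv w u u') : w u' = w u := by
  rcases h with ⟨h, h'⟩ | h
  · rw [h, h']
  · exact w.map_eq_of_sub_lt h

lemma Rv.symm {u u' : E} (h : Rv w u u') : Rv w u' u := by
  have hv := h.val
  rcases h with ⟨h, h'⟩ | h
  · exact Or.inl ⟨h', h⟩
  · right; rw [w.map_sub_swap, hv]; exact h

lemma Rv.sub_lt {u u' : E} (h : Rv w u u') {μ : Γ} (hμ : μ ≠ 0) (hu : w u ≤ μ) :
    w (u' - u) < μ := by
  rcases h with ⟨h, h'⟩ | h
  · rw [h, h', sub_zero, map_zero]; exact zero_lt_iff.2 hμ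
  · exact h.trans_le hu

lemma Rv.zero_right {u' : E} (h : Rv w 0 u') : u' = 0 := by
  have := h.val
  rw [map_zero] at this
  exact w.zero_iff.1 this

lemma Rv.trans {u u' u'' : E} (h : Rv w u u') (h' : Rv w u' u'') : Rv w u u'' := by
  by_cases hu : u = 0
  · subst hu
    have := h.zero_right
    subst this
    exact h'
  · right
    have h0 : w u ≠ 0 := w.ne_zero_iff.2 hu
    have e : u'' - u = (u'' - u') + (u' - u) := by ring
    rw [e]
    exact w.map_add_lt (h'.sub_lt h0 h.val.le) (h.sub_lt h0 le_rfl)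

lemma Rv.mul_right {u u' : E} (h : Rv w u u') (c : E) : Rv w (u * c) (u' * c) := by
  by_cases hc : c = 0
  · left; simp [hc]
  rcases h with ⟨h, h'⟩ | h
  · left; simp [h, h']
  · right
    rw [← sub_mul, map_mul, map_mul]
    exact mul_lt_mul_of_pos_right h (w.pos_iff.2 hc)

lemma Rv.mul {u u' v v' : E} (h : Rv w u u') (h' : Rv w v v') : Rv w (u * v) (u' * v') := by
  refine (h.mul_right v).trans ?_
  have := h'.mul_right u'
  rwa [mul_comm v, mul_comm v'] at this

lemma Rv.pow {u u' : E} (h : Rv w u u') (n : ℕ) : Rv w (u ^ n) (u' ^ n) := by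
  induction n with
  | zero => simpa using Rv.refl 1
  | succ n ih => rw [pow_succ, pow_succ]; exact ih.mul h

lemma Rv.inv {u u' : E} (h : Rv w u u') : Rv w u⁻¹ u'⁻¹ := by
  by_cases hu : u = 0
  · subst hu; rw [h.zero_right]; exact Rv.refl _
  have hu' : u' ≠ 0 := fun e => hu (by subst e; exact h.symm.zero_right)
  have := h.symm.mul_right (u⁻¹ * u'⁻¹)
  have e1 : u' * (u⁻¹ * u'⁻¹) = u⁻¹ := by field_simp
  have e2 : u * (u⁻¹ * u'⁻¹) = u'⁻¹ := by field_simp
  rwa [e1, e2] at this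

/-- A lower set of values containing zero. -/
structure Low (Q : Γ → Prop) : Prop where
  zero : Q 0
  mono : ∀ a b, a ≤ b → Q b → Q a

lemma low_le (μ : Γ) : Low (· ≤ μ) := ⟨zero_le, fun _ _ h h' => h.trans h'⟩

lemma low_lt {μ : Γ} (h : μ ≠ 0) : Low (· < μ) :=
  ⟨zero_lt_iff.2 h, fun _ _ h h' => h.trans_lt h'⟩

lemma Low.add {Q : Γ → Prop} (hQ : Low Q) {x y : E} (hx : Q (w x)) (hy : Q (w y)) :
    Q (w (x + y)) := by
  rcases le_total (w x) (w y) with h | h
  · exact hQ.mono _ _ (w.map_add_le h le_rfl) hy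
  · exact hQ.mono _ _ (w.map_add_le le_rfl h) hx

lemma Low.sum {Q : Γ → Prop} (hQ : Low Q) {ι : Type} (s : Finset ι) (f : ι → E)
    (h : ∀ i ∈ s, Q (w (f i))) : Q (w (∑ i ∈ s, f i)) := by
  classical
  induction s using Finset.induction_on with
  | empty => simpa using hQ.zero
  | insert a s ha ih =>
    rw [Finset.sum_insert ha]
    exact hQ.add (h a (Finset.mem_insert_self _ _))
      (ih fun i hi => h i (Finset.mem_insert_of_mem hi))

lemma val_nat_le (n : ℕ) : w (n : E) ≤ 1 := by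
  induction n with
  | zero => simp
  | succ n ih => push_cast; exact w.map_add_le ih (by simp)

lemma val_int_le (n : ℤ) : w (n : E) ≤ 1 := by
  obtain ⟨m, rfl | rfl⟩ := n.eq_nat_or_neg
  · simpa using val_nat_le m
  · simpa using val_nat_le m

/-- All terms of `p` at `b` have value in `Q`. -/
def GB (w : Valuation E Γ) (Q : Γ → Prop) (p : E[X]) (b : E) : Prop :=
  ∀ i, Q (w (p.coeff i * b ^ i))

variable {Q : Γ → Prop}

lemma GB.of_le (hQ : Low Q) {p : E[X]} {b b' : E} (h : GB w Q p b) (hb : w b' ≤ w b) :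
    GB w Q p b' := fun i => by
  refine hQ.mono _ _ ?_ (h i)
  rw [map_mul, map_mul, map_pow, map_pow]
  gcongr

lemma GB.eval (hQ : Low Q) {p : E[X]} {b : E} (h : GB w Q p b) : Q (w (p.eval b)) := by
  rw [eval_eq_sum_range]
  exact hQ.sum _ _ fun i _ => h i

lemma GB.add (hQ : Low Q) {p q : E[X]} {b : E} (h : GB w Q p b) (h' : GB w Q q b) :
    GB w Q (p + q) b := fun i => by
  rw [coeff_add, add_mul]; exact hQ.add (h i) (h' i)

lemma GB.taylor (hQ : Low Q) {p : E[X]} {b e : E} (h : GB w Q p b) (he : w e ≤ w b) :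
    GB w Q (taylor e p) b := fun i => by
  rw [taylor_coeff, eval_eq_sum_range, Finset.sum_mul]
  refine hQ.sum _ _ fun j _ => hQ.mono _ _ ?_ (h (j + i))
  rw [hasseDeriv_coeff]
  simp only [map_mul, map_pow, pow_add]
  calc w ((j + i).choose i : E) * w (p.coeff (j + i)) * w e ^ j * w b ^ i
      ≤ 1 * w (p.coeff (j + i)) * w b ^ j * w b ^ i := by
        gcongr
        exact val_nat_le _
    _ = _ := by rw [one_mul, mul_assoc]

lemma GB.xder (hQ : Low Q) {p : E[X]} {b : E} (h : GB w Q p b) :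
    GB w Q (X * derivative p) b := fun i => by
  cases i with
  | zero => simpa using hQ.zero
  | succ i =>
    refine hQ.mono _ _ ?_ (h (i + 1))
    rw [coeff_X_mul, coeff_derivative]
    have : w ((i : E) + 1) ≤ 1 := by simpa using val_nat_le (w := w) (i + 1)
    simp only [map_mul]
    calc w (p.coeff (i + 1)) * w ((i : E) + 1) * w (b ^ (i + 1))
        ≤ w (p.coeff (i + 1)) * 1 * w (b ^ (i + 1)) := by gcongr
      _ = _ := by rw [mul_one]

/-- Comparison of the values of two close polynomials at two close points. -/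
lemma cmp {p₀ p : E[X]} {b b' : E} {μ : Γ} (hμ : μ ≠ 0) (h₀ : GB w (· ≤ μ) p₀ b)
    (h₁ : GB w (· < μ) (p - p₀) b) (hb : Rv w b b') : w (p.eval b' - p₀.eval b) < μ := by
  have e : p.eval b' - p₀.eval b = (p - p₀).eval b' + (p₀.eval b' - p₀.eval b) := by
    rw [eval_sub]; ring
  rw [e]
  refine w.map_add_lt ((h₁.of_le (low_lt hμ) hb.val.le).eval (low_lt hμ)) ?_
  rw [eval_eq_sum_range, eval_eq_sum_range, ← Finset.sum_sub_distrib]
  refine (low_lt hμ).sum _ _ fun i _ => ?_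
  exact ((Rv.refl _).mul (hb.pow i)).sub_lt hμ (h₀ i)

/-- Hensel's lemma for the subfield `K`. -/
def Hens (w : Valuation E Γ) (K : Subfield E) : Prop :=
  ∀ G : E[X], (∀ i, G.coeff i ∈ K) → (∀ i, w (G.coeff i) ≤ 1) → w (G.coeff 0) < 1 →
    w (G.coeff 1) = 1 → ∃ t ∈ K, G.eval t = 0 ∧ w t < 1

lemma eval_mem {K : Subfield E} {p : E[X]} (hp : ∀ i, p.coeff i ∈ K) {b : E} (hb : b ∈ K) :
    p.eval b ∈ K := by
  rw [eval_eq_sum_range]
  exact K.sum_mem fun i _ => K.mul_mem (hp i) (K.pow_mem hb i)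

lemma taylor_mem {K : Subfield E} {p : E[X]} (hp : ∀ i, p.coeff i ∈ K) {b : E} (hb : b ∈ K)
    (i : ℕ) : (taylor b p).coeff i ∈ K := by
  rw [taylor_coeff]
  refine eval_mem (fun j => ?_) hb
  rw [hasseDeriv_coeff]
  exact K.mul_mem (natCast_mem K _) (hp _)

/-- Perturbed Newton lemma. -/
lemma newton {K : Subfield E} (hK : Hens w K) {p₀ p : E[X]} {b b' : E} {μ : Γ} (hμ : μ ≠ 0)
    (hp : ∀ i, p.coeff i ∈ K) (hb' : b' ∈ K) (h₀ : GB w (· ≤ μ) p₀ b)
    (h₁ : GB w (· < μ) (p - p₀) b) (hb : Rv w b b') (hz : p₀.eval b = 0)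
    (hd : w (b * (derivative p₀).eval b) = μ) : ∃ t ∈ K, p.eval t = 0 ∧ Rv w b t := by
  have c0 := cmp hμ h₀ h₁ hb
  rw [hz, sub_zero] at c0
  have c1 := cmp (p := X * derivative p) hμ (h₀.xder (low_le μ))
    (by rw [← mul_sub, ← derivative_sub]; exact h₁.xder (low_lt hμ)) hb
  simp only [eval_mul, eval_X] at c1
  set π := b' * (derivative p).eval b' with hπ
  have hπv : w π = μ := by rw [← hd] at c1 ⊢; exact w.map_eq_of_sub_lt c1
  have hπ0 : π ≠ 0 := fun e => hμ (by rw [← hπv, e, map_zero])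
  have hb0 : b' ≠ 0 := fun e => hπ0 (by rw [hπ, e, zero_mul])
  have hG : GB w (· ≤ μ) p b' := by
    have := GB.add (low_le μ) h₀ (fun i => (h₁ i).le : GB w (· ≤ μ) (p - p₀) b)
    rw [add_sub_cancel] at this
    exact this.of_le (low_le μ) hb.val.le
  have hT := hG.taylor (low_le μ) (le_refl (w b'))
  have hco : ∀ i, (C π⁻¹ * (taylor b' p).comp (C b' * X)).coeff i =
      π⁻¹ * ((taylor b' p).coeff i * b' ^ i) := fun i => by
    rw [coeff_C_mul, comp_C_mul_X_coeff]
  have hμ' : 0 < μ := zero_lt_iff.2 hμ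
  have hπK : π ∈ K := K.mul_mem hb' (eval_mem (fun i => by
    rw [coeff_derivative]
    exact K.mul_mem (hp _) (K.add_mem (natCast_mem K _) K.one_mem)) hb')
  obtain ⟨s, hsK, hs, hs1⟩ := hK (C π⁻¹ * (taylor b' p).comp (C b' * X))
    (fun i => by
      rw [hco]
      exact K.mul_mem (K.inv_mem hπK) (K.mul_mem (taylor_mem hp hb' i) (K.pow_mem hb' i)))
    (fun i => by
      rw [hco, map_mul, map_inv₀, hπv, inv_mul_le_one₀ hμ']
      exact hT i)
    (by
      rw [hco, map_mul, map_inv₀, hπv, inv_mul_lt_one₀ hμ']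
      simpa using c0)
    (by
      rw [hco, taylor_coeff_one, pow_one, mul_comm _ b', ← hπ, inv_mul_cancel₀ hπ0, map_one])
  refine ⟨b' * s + b', K.add_mem (K.mul_mem hb' hsK) hb', ?_, hb.trans (Or.inr ?_)⟩
  · simpa [eval_comp, taylor_eval, hπ0] using hs
  · rw [add_sub_cancel_right, map_mul]
    exact mul_lt_of_lt_one_right (w.pos_iff.2 hb0) hs1

end Pool.Agent.MP_28f2cb_lc.H31
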