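import Pool.Agent.MP_28f2cb_lc.H31.Puiseux

/-! Primes at which given polynomials split, and solubility at very divisible points. -/

namespace Pool.Agent.MP_28f2cb_lc.H31

open Polynomial Filter

lemma schur {g : ℤ[X]} (hg : g.natDegree ≠ 0) (B : ℕ) :
    ∃ l : ℕ, l.Prime ∧ B < l ∧ ∃ a : ℤ, (l : ℤ) ∣ g.eval a := by
  by_cases hc : g.coeff 0 = 0
  · obtain ⟨l, h1, h2⟩ := Nat.exists_infinite_primes (B + 1)
    exact ⟨l, h2, h1, 0, by simp [← coeff_zero_eq_eval_zero, hc]⟩
  set c := g.coeff 0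
  have hM : c * (B.factorial : ℤ) ≠ 0 := mul_ne_zero hc (by exact_mod_cast B.factorial_ne_zero)
  have hne : ∀ d : ℤ, g - C d ≠ 0 := fun d e => hg (by rw [sub_eq_zero.1 e, natDegree_C])
  obtain ⟨t, ht⟩ : ∃ t : ℤ, ¬ ((g - C c) * (g - C (-c))).IsRoot (c * B.factorial * t) := by
    by_contra hn
    push Not at hn
    exact mul_ne_zero (hne c) (hne (-c)) (eq_zero_of_infinite_isRoot _
      (Set.infinite_of_injective_forall_mem (mul_right_injective₀ hM) hn))
  set z := 1 + B.factorial * (t * (divX g).eval (c * B.factorial * t))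
  have e : g.eval (c * B.factorial * t) = c * z := by
    conv_lhs => rw [← X_mul_divX_add g]
    simp only [eval_add, eval_mul, eval_X, eval_C]
    ring
  simp only [IsRoot, eval_mul, eval_sub, eval_C, e, mul_eq_zero, not_or] at ht
  obtain ⟨l, hl, hd⟩ := Nat.exists_prime_and_dvd (n := z.natAbs) fun h => by
    rcases Int.natAbs_eq_iff.1 h with h | h
    · exact ht.1 (by rw [h]; simp)
    · exact ht.2 (by rw [h]; simp)
  have hd' : (l : ℤ) ∣ z := Int.natCast_dvd.2 hd
  refine ⟨l, hl, not_le.1 fun hle => ?_, _, e ▸ hd'.mul_left c⟩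
  have h1 : (l : ℤ) ∣ B.factorial := by exact_mod_cast Nat.dvd_factorial hl.pos hle
  have := (dvd_add_left (h1.mul_right _)).1 hd'
  exact hl.one_lt.ne' (by exact_mod_cast Int.eq_one_of_dvd_one (by positivity) this)

lemma exists_root_padic {g : ℚ[X]} (hg : Irreducible g) (B : ℕ) :
    ∃ l : ℕ, ∃ _ : Fact l.Prime, B < l ∧ ∃ z : ℚ_[l], aeval z g = 0 := by
  obtain ⟨u, v, huv⟩ := hg.separable
  obtain ⟨b, hb, hG⟩ := IsLocalization.integerNormalization_spec (nonZeroDivisors ℤ) g
  obtain ⟨b1, hb1, hU⟩ := IsLocalization.integerNormalization_spec (nonZeroDivisors ℤ) u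
  obtain ⟨b2, hb2, hV⟩ := IsLocalization.integerNormalization_spec (nonZeroDivisors ℤ) v
  set G := IsLocalization.integerNormalization (nonZeroDivisors ℤ) g
  set U := IsLocalization.integerNormalization (nonZeroDivisors ℤ) u
  set V := IsLocalization.integerNormalization (nonZeroDivisors ℤ) v
  have hb0 := nonZeroDivisors.ne_zero hb
  have hD : b * b1 * b2 ≠ 0 :=
    mul_ne_zero (mul_ne_zero hb0 (nonZeroDivisors.ne_zero hb1)) (nonZeroDivisors.ne_zero hb2)
  have e : C b2 * U * G + C b1 * V * derivative G = C (b * b1 * b2) := by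
    apply map_injective (algebraMap ℤ ℚ) (algebraMap ℤ ℚ).injective_int
    simp only [Polynomial.map_add, Polynomial.map_mul, ← derivative_map, hG, hU, hV, map_C,
      zsmul_eq_mul, derivative_mul, derivative_intCast, eq_intCast, Polynomial.map_intCast,
      map_intCast, Int.cast_mul, map_mul]
    linear_combination (b * b1 * b2 : ℚ[X]) * huv
  have hdeg : G.natDegree ≠ 0 := by
    rw [← natDegree_map_eq_of_injective (algebraMap ℤ ℚ).injective_int, hG, zsmul_eq_mul,
      ← C_eq_intCast, natDegree_C_mul (by exact_mod_cast hb0)]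
    exact hg.natDegree_pos.ne'
  obtain ⟨l, hl, hB, a, ha⟩ := schur hdeg (max B (b * b1 * b2).natAbs)
  haveI := Fact.mk hl
  have ha' : ¬ (l : ℤ) ∣ (derivative G).eval a := fun h => by
    have := congrArg (eval a) e
    simp only [eval_add, eval_mul, eval_C] at this
    have h2 : (l : ℤ) ∣ b * b1 * b2 := this ▸ (ha.mul_left _).add (h.mul_left _)
    exact absurd (Nat.le_of_dvd (Int.natAbs_pos.2 hD) (Int.natCast_dvd.1 h2))
      (not_le.2 ((le_max_right _ _).trans_lt hB))
  have hcast : ∀ f : ℤ[X], aeval (a : ℤ_[l]) f = ((f.eval a : ℤ) : ℤ_[l]) := fun f =>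
    aeval_algebraMap_apply_eq_algebraMap_eval (A := ℤ_[l]) a f
  obtain ⟨z, hz, -⟩ := hensels_lemma (F := G) (a := (a : ℤ_[l])) (by
    rw [hcast, hcast, le_antisymm (PadicInt.norm_le_one _)
      (not_lt.1 fun h => ha' ((PadicInt.norm_int_lt_one_iff_dvd _).1 h)), one_pow]
    exact (PadicInt.norm_int_lt_one_iff_dvd _).2 ha)
  refine ⟨l, inferInstance, (le_max_left _ _).trans_lt hB, z, ?_⟩
  have h1 : aeval (z : ℚ_[l]) G = 0 := by
    have := hom_aeval' PadicInt.Coe.ringHom z G
    rw [hz, map_zero] at this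
    exact this.symm
  rw [← aeval_map_algebraMap ℚ, hG, map_zsmul, smul_eq_zero] at h1
  exact h1.resolve_left hb0

lemma splits_of_hom {L : Type} [Field L] (h : ℤ[X])
    (φ : (h.map (algebraMap ℤ ℚ)).SplittingField →+* L) : (h.map (algebraMap ℤ L)).Splits := by
  have := (SplittingField.splits (h.map (algebraMap ℤ ℚ))).map φ
  rw [Polynomial.map_map, Polynomial.map_map] at this
  convert this using 2
  exact RingHom.ext_int _ _

lemma exists_split (s : Finset ℤ[X]) (B : ℕ) :
    ∃ l : ℕ, ∃ _ : Fact l.Prime, B < l ∧ ∀ h ∈ s, (h.map (algebraMap ℤ ℚ_[l])).Splits := by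
  classical
  set H := ∏ h ∈ s.erase 0, h
  have hH : H ≠ 0 := Finset.prod_ne_zero_iff.2 fun h hh => (Finset.mem_erase.1 hh).1
  set pb := Field.powerBasisOfFiniteOfSeparable ℚ (H.map (algebraMap ℤ ℚ)).SplittingField
  obtain ⟨l, hl, hB, z, hz⟩ := exists_root_padic (minpoly.irreducible pb.isIntegral_gen) B
  refine ⟨l, hl, hB, fun h hh => ?_⟩
  by_cases h0 : h = 0
  · simp [h0]
  exact (splits_of_hom H (pb.lift z hz).toRingHom).of_dvd
    ((Polynomial.map_ne_zero_iff (algebraMap ℤ ℚ_[l]).injective_int).2 hH)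
    (Polynomial.map_dvd _ (Finset.dvd_prod_of_mem _ (Finset.mem_erase.2 ⟨h0, hh⟩)))

lemma exists_split_seq (B : ℕ → ℕ) : ∃ l : ℕ → ℕ, ∃ _ : ∀ k, Fact (l k).Prime, (∀ k, B k < l k) ∧
    ∀ h : ℤ[X], ∀ᶠ k in uf, (h.map (algebraMap ℤ ℚ_[l k])).Splits := by
  classical
  haveI := countable_poly
  obtain ⟨e, he⟩ := exists_surjective_nat ℤ[X]
  choose l hl h1 h2 using fun k => exists_split ((Finset.range (k + 1)).image e) (B k)
  refine ⟨l, hl, h1, fun h => ?_⟩
  obtain ⟨i, rfl⟩ := he h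
  filter_upwards [uf_ge i] with k hk
  exact h2 k _ (Finset.mem_image_of_mem e (Finset.mem_range.2 (by omega)))

lemma up_splits {K : ℕ → Type} [∀ k, NormedField (K k)] [∀ k, CharZero (K k)] (h : ℤ[X])
    (hs : ∀ᶠ k in uf, (h.map (algebraMap ℤ (K k))).Splits) :
    (h.map (algebraMap ℤ (UP K))).Splits := by
  have : ∀ k, ∃ φ : (h.map (algebraMap ℤ ℚ)).SplittingField → K k,
      (h.map (algebraMap ℤ (K k))).Splits →
      ∃ ψ : (h.map (algebraMap ℤ ℚ)).SplittingField →+* K k, ∀ x, φ x = ψ x := fun k => by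
    refine exists_imp fun hk => ?_
    have := SplittingField.lift (L := K k) (h.map (algebraMap ℤ ℚ)) (by
      rw [Polynomial.map_map]
      convert hk using 2
      exact RingHom.ext_int _ _)
    exact ⟨this, this.toRingHom, fun _ => rfl⟩
  choose φ hφ using this
  refine splits_of_hom h
    { toFun := fun x => mk fun k => φ k x
      map_one' := ?_
      map_mul' := fun x y => ?_
      map_zero' := ?_
      map_add' := fun x y => ?_ }
  · rw [← map_one mk, mk_eq]
    filter_upwards [hs] with k hk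
    obtain ⟨ψ, e⟩ := hφ k hk
    simp [e]
  · rw [← map_mul mk, mk_eq]
    filter_upwards [hs] with k hk
    obtain ⟨ψ, e⟩ := hφ k hk
    simp [e]
  · rw [mk_zero]
    filter_upwards [hs] with k hk
    obtain ⟨ψ, e⟩ := hφ k hk
    simp [e]
  · rw [← map_add mk, mk_eq]
    filter_upwards [hs] with k hk
    obtain ⟨ψ, e⟩ := hφ k hk
    simp [e]

end Pool.Agent.MP_28f2cb_lc.H31
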