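import Pool.Agent.MP_28f2cb_lc.H31.Embed

/-! Ultraproducts of complete normed fields with a scaled valuation. -/

namespace Pool.Agent.MP_28f2cb_lc.H31

open Polynomial Filter

lemma pow_sub_pow_le {L : Type} [NormedField L] {s t : L} {δ : ℝ} (hδ : δ ≤ 1) (hs : ‖s‖ ≤ δ)
    (ht : ‖t‖ ≤ δ) (j : ℕ) : ‖t ^ (j + 2) - s ^ (j + 2)‖ ≤ (j + 2) * δ * ‖t - s‖ := by
  have hδ0 : 0 ≤ δ := (norm_nonneg _).trans hs
  induction j with
  | zero =>
    have e : t ^ (0 + 2) - s ^ (0 + 2) = (t + s) * (t - s) := by ring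
    rw [e, norm_mul]
    have : ‖t + s‖ ≤ ((0 : ℕ) + 2) * δ := (norm_add_le _ _).trans (by push_cast; linarith)
    gcongr
  | succ j ih =>
    have e : t ^ (j + 1 + 2) - s ^ (j + 1 + 2) =
        t * (t ^ (j + 2) - s ^ (j + 2)) + s ^ (j + 1) * s * (t - s) := by ring
    rw [e]
    refine (norm_add_le _ _).trans ?_
    rw [norm_mul, norm_mul, norm_mul, norm_pow]
    have h1 : ‖s‖ ^ (j + 1) ≤ 1 := pow_le_one₀ (norm_nonneg _) (hs.trans hδ)
    have h2 : ‖t‖ * ‖t ^ (j + 2) - s ^ (j + 2)‖ ≤ 1 * ((j + 2) * δ * ‖t - s‖) := by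
      gcongr; exact ht.trans hδ
    have h3 : ‖s‖ ^ (j + 1) * ‖s‖ * ‖t - s‖ ≤ 1 * δ * ‖t - s‖ := by gcongr
    push_cast
    linarith

lemma local_hensel {L : Type} [NormedField L] [CompleteSpace L] (d : ℕ) (c : ℕ → L) (a : L)
    {M : ℝ} (hM : 1 ≤ M) (hc : ∀ i < d, ‖c i‖ ≤ M) (ha : ‖a‖ * (4 * (d + 1) ^ 2 * M) ≤ 1) :
    ∃ t : L, a + t + ∑ i ∈ Finset.range d, c i * t ^ (i + 2) = 0 ∧ ‖t‖ ≤ 2 * ‖a‖ := by
  set δ := 2 * ‖a‖ with hδ
  have hδ0 : 0 ≤ δ := by positivity
  have hd : (0 : ℝ) ≤ d := Nat.cast_nonneg d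
  have hk : d * ((d + 1) * δ * M) ≤ 1 / 2 := by
    have : d * ((d + 1) * δ * M) ≤ (d + 1) * ((d + 1) * δ * M) := by gcongr; linarith
    have e : (d + 1) * ((d + 1) * δ * M) = ‖a‖ * (4 * (d + 1) ^ 2 * M) / 2 := by rw [hδ]; ring
    linarith
  have hδ1 : δ ≤ 1 := by
    have : ‖a‖ * (4 * 1 * 1) ≤ ‖a‖ * (4 * (d + 1) ^ 2 * M) := by
      gcongr; nlinarith
    have := norm_nonneg a
    linarith
  set T : L → L := fun t => -a - ∑ i ∈ Finset.range d, c i * t ^ (i + 2) with hT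
  have hlip : ∀ s t : L, ‖s‖ ≤ δ → ‖t‖ ≤ δ → ‖T t - T s‖ ≤ 1 / 2 * ‖t - s‖ := fun s t hs ht => by
    have e : T t - T s = -∑ i ∈ Finset.range d, c i * (t ^ (i + 2) - s ^ (i + 2)) := by
      simp only [hT, mul_sub, Finset.sum_sub_distrib]; ring
    rw [e, norm_neg]
    refine (norm_sum_le_of_le _ (n := fun _ => (d + 1) * δ * M * ‖t - s‖) fun i hi => ?_).trans ?_
    · have hi' := Finset.mem_range.1 hi
      have hi2 : (i : ℝ) + 2 ≤ d + 1 := by
        have : ((i + 1 : ℕ) : ℝ) ≤ d := by exact_mod_cast hi'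
        push_cast at this; linarith
      rw [norm_mul]
      calc ‖c i‖ * ‖t ^ (i + 2) - s ^ (i + 2)‖ ≤ M * ((d + 1) * δ * ‖t - s‖) := by
            gcongr
            · exact hc i hi'
            · exact (pow_sub_pow_le hδ1 hs ht i).trans (by gcongr)
        _ = _ := by ring
    · rw [Finset.sum_const, Finset.card_range, nsmul_eq_mul, ← mul_assoc]
      gcongr
  have hT0 : T 0 = -a := by simp [hT]
  have hmaps : Set.MapsTo T (Metric.closedBall 0 δ) (Metric.closedBall 0 δ) := fun t ht => by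
    rw [mem_closedBall_zero_iff] at ht ⊢
    have := hlip 0 t (by simpa using hδ0) ht
    rw [hT0, sub_zero, sub_neg_eq_add] at this
    have h2 : ‖T t‖ ≤ ‖T t + a‖ + ‖a‖ := by simpa using norm_sub_le (T t + a) a
    linarith
  obtain ⟨t, ht, hfix, -⟩ := ContractingWith.exists_fixedPoint' (K := 1 / 2)
    Metric.isClosed_closedBall.isComplete hmaps ⟨by norm_num, LipschitzWith.of_dist_le_mul
      fun x y => by
        have := hlip y x (mem_closedBall_zero_iff.1 y.2) (mem_closedBall_zero_iff.1 x.2)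
        simpa [Subtype.dist_eq, dist_eq_norm] using this⟩
    (Metric.mem_closedBall_self hδ0) (edist_ne_top _ _)
  refine ⟨t, ?_, mem_closedBall_zero_iff.1 ht⟩
  have : -a - ∑ i ∈ Finset.range d, c i * t ^ (i + 2) = t := hfix
  linear_combination -this

lemma exists_imp {α : Type} [Nonempty α] {p : Prop} {q : α → Prop} (h : p → ∃ a, q a) :
    ∃ a, p → q a := by
  by_cases hp : p
  · obtain ⟨a, ha⟩ := h hp
    exact ⟨a, fun _ => ha⟩
  · exact ⟨Classical.arbitrary α, fun h' => absurd h' hp⟩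

variable (K : ℕ → Type) [∀ k, NormedField (K k)]

/-- The ultrafilter used throughout. -/
noncomputable abbrev uf : Filter ℕ := (hyperfilter ℕ : Filter ℕ)

lemma uf_or (p : ℕ → Prop) : (∀ᶠ k in uf, p k) ∨ ∀ᶠ k in uf, ¬ p k := (hyperfilter ℕ).em p

lemma uf_not {p : ℕ → Prop} : (¬ ∀ᶠ k in uf, p k) ↔ ∀ᶠ k in uf, ¬ p k :=
  Ultrafilter.eventually_not.symm

lemma uf_ge (n : ℕ) : ∀ᶠ k in uf, n ≤ k := Nat.hyperfilter_le_atTop (eventually_ge_atTop n)

/-- Families that vanish almost everywhere. -/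
def nul : Ideal (∀ k, K k) where
  carrier := {x | ∀ᶠ k in uf, x k = 0}
  zero_mem' := Eventually.of_forall fun _ => rfl
  add_mem' := fun {x y} hx hy => by
    filter_upwards [hx, hy] with k h1 h2
    simp [h1, h2]
  smul_mem' := fun c x hx => by
    filter_upwards [hx] with k h1
    simp [h1]

instance nul_max : (nul K).IsMaximal := by
  refine Ideal.isMaximal_iff.2 ⟨fun h => ?_, fun J x hJ hx hxJ => ?_⟩
  · obtain ⟨k, hk⟩ := (show ∀ᶠ k in uf, (1 : ∀ k, K k) k = 0 from h).exists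
    simp at hk
  · have h1 : ∀ᶠ k in uf, ¬ x k = 0 := uf_not.1 hx
    have h2 : 1 - x⁻¹ * x ∈ nul K := by
      change ∀ᶠ k in uf, (1 - x⁻¹ * x) k = 0
      filter_upwards [h1] with k hk
      simp [hk]
    simpa using J.add_mem (hJ h2) (J.mul_mem_left x⁻¹ hxJ)

/-- The ultraproduct field. -/
def UP : Type := (∀ k, K k) ⧸ nul K

noncomputable instance : Field (UP K) := Ideal.Quotient.field (nul K)

variable {K}

/-- The class of a family. -/
noncomputable def mk : (∀ k, K k) →+* UP K := Ideal.Quotient.mk (nul K)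

lemma mk_surj : Function.Surjective (mk : (∀ k, K k) → UP K) := Ideal.Quotient.mk_surjective

lemma mk_zero {x : ∀ k, K k} : mk x = 0 ↔ ∀ᶠ k in uf, x k = 0 := Ideal.Quotient.eq_zero_iff_mem

lemma mk_eq {x y : ∀ k, K k} : mk x = mk y ↔ ∀ᶠ k in uf, x k = y k := by
  rw [← sub_eq_zero, ← map_sub, mk_zero]
  simp [sub_eq_zero]

lemma mk_inv (x : ∀ k, K k) : mk x⁻¹ = (mk x)⁻¹ := by
  rcases uf_or (fun k => x k = 0) with h | h
  · rw [mk_zero.2 h, inv_zero, mk_zero]
    filter_upwards [h] with k hk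
    simp [hk]
  · refine eq_inv_of_mul_eq_one_left ?_
    rw [← map_mul, ← map_one mk, mk_eq]
    filter_upwards [h] with k hk
    simp [hk]

/-- Bounded by a power of the scale. -/
def Bd (R : ℕ → ℝ) (x : ∀ k, K k) : Prop := ∃ C : ℕ, ∀ᶠ k in uf, ‖x k‖ ≤ R k ^ C

/-- Smaller than every negative power of the scale. -/
def Sm (R : ℕ → ℝ) (x : ∀ k, K k) : Prop := ∀ C : ℕ, ∀ᶠ k in uf, ‖x k‖ * R k ^ C ≤ 1

variable {R : ℕ → ℝ}

lemma Bd.congr {x y : ∀ k, K k} (h : Bd R x) (e : mk x = mk y) : Bd R y := by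
  obtain ⟨C, h⟩ := h
  refine ⟨C, ?_⟩
  filter_upwards [h, mk_eq.1 e] with k h1 h2
  rwa [← h2]

lemma bd_of_le_one {x : ∀ k, K k} (h : ∀ᶠ k in uf, ‖x k‖ ≤ 1) : Bd R x := ⟨0, by simpa using h⟩

variable (K) in
/-- The valuation ring of bounded families. -/
def bdd (hR : ∀ k, 2 ≤ R k) : ValuationSubring (UP K) where
  carrier := {u | ∃ x, mk x = u ∧ Bd R x}
  mul_mem' := by
    rintro _ _ ⟨x, rfl, C, hx⟩ ⟨y, rfl, D, hy⟩
    refine ⟨x * y, map_mul _ _ _, C + D, ?_⟩
    filter_upwards [hx, hy] with k h1 h2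
    rw [Pi.mul_apply, norm_mul, pow_add]
    have := hR k
    gcongr
  one_mem' := ⟨1, map_one _, bd_of_le_one (by simp)⟩
  add_mem' := by
    rintro _ _ ⟨x, rfl, C, hx⟩ ⟨y, rfl, D, hy⟩
    refine ⟨x + y, map_add _ _ _, C + D + 1, ?_⟩
    filter_upwards [hx, hy] with k h1 h2
    have h3 := hR k
    have h4 : R k ^ C ≤ R k ^ (C + D) := pow_le_pow_right₀ (by linarith) (by omega)
    have h5 : R k ^ D ≤ R k ^ (C + D) := pow_le_pow_right₀ (by linarith) (by omega)
    have h6 : 0 ≤ R k ^ (C + D) := by positivity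
    rw [Pi.add_apply, pow_succ]
    refine (norm_add_le _ _).trans ?_
    nlinarith
  zero_mem' := ⟨0, map_zero _, bd_of_le_one (by simp)⟩
  neg_mem' := by
    rintro _ ⟨x, rfl, C, hx⟩
    exact ⟨-x, map_neg _ _, C, by simpa using hx⟩
  mem_or_inv_mem' := fun u => by
    obtain ⟨x, rfl⟩ := mk_surj u
    rcases uf_or (fun k => ‖x k‖ ≤ 1) with h | h
    · exact Or.inl ⟨x, rfl, bd_of_le_one h⟩
    · refine Or.inr ⟨x⁻¹, mk_inv x, bd_of_le_one ?_⟩
      filter_upwards [h] with k hk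
      rw [Pi.inv_apply, norm_inv]
      exact inv_le_one_of_one_le₀ (not_le.1 hk).le

variable (hR : ∀ k, 2 ≤ R k)

lemma val_le {x : ∀ k, K k} : (bdd K hR).valuation (mk x) ≤ 1 ↔ Bd R x := by
  rw [ValuationSubring.valuation_le_one_iff]
  exact ⟨fun ⟨y, e, h⟩ => h.congr e, fun h => ⟨x, rfl, h⟩⟩

lemma val_lt {x : ∀ k, K k} : (bdd K hR).valuation (mk x) < 1 ↔ Sm R x := by
  rw [← ValuationSubring.mem_nonunits_iff, ValuationSubring.mem_nonunits_iff_or,
    ← ValuationSubring.valuation_le_one_iff, ← mk_inv, val_le, mk_zero]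
  constructor
  · rintro (h | h) C
    · filter_upwards [h] with k hk
      simp [hk]
    · filter_upwards [uf_not.1 fun h' => h ⟨C, h'⟩] with k hk
      rw [Pi.inv_apply, norm_inv, not_le] at hk
      have h0 : 0 < R k ^ C := by have := hR k; positivity
      have h1 : 0 < ‖x k‖ := inv_pos.1 (h0.trans hk)
      rw [← le_div_iff₀' h1, one_div]
      exact hk.le
  · intro h
    rw [or_iff_not_imp_left]
    rintro h0 ⟨C, hC⟩
    obtain ⟨k, h1, h2, h3⟩ := ((uf_not.1 h0).and (hC.and (h (C + 1)))).exists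
    rw [Pi.inv_apply, norm_inv] at h2
    have h4 := hR k
    have h5 : 0 < ‖x k‖ := norm_pos_iff.2 h1
    rw [inv_le_iff_one_le_mul₀' h5] at h2
    rw [pow_succ, ← mul_assoc] at h3
    nlinarith

lemma mk_eval (H : (∀ k, K k)[X]) (t : ∀ k, K k) : (H.map mk).eval (mk t) = mk (H.eval t) := by
  rw [eval_map, eval₂_at_apply]

lemma sat_up : Sat (bdd K hR).valuation ⊤ := by
  classical
  intro h _ hn
  choose H hH using fun j => map_surjective (mk (K := K)) mk_surj (h j)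
  choose u _ hu using hn
  choose t ht using fun n => mk_surj (u n)
  have hA : ∀ n, ∀ᶠ k in uf, ∀ j < n, ‖((H j).eval (t n)) k‖ * R k ^ n ≤ 1 := fun n => by
    have : ∀ᶠ k in uf, ∀ j ∈ Finset.range n, ‖((H j).eval (t n)) k‖ * R k ^ n ≤ 1 := by
      rw [eventually_all_finset]
      intro j hj
      have := hu n j (Finset.mem_range.1 hj)
      rw [← ht, ← hH, mk_eval, val_lt] at this
      exact this n
    simpa using this
  let N : ℕ → ℕ := fun k =>
    Nat.findGreatest (fun n => ∀ j < n, ‖((H j).eval (t n)) k‖ * R k ^ n ≤ 1) k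
  refine ⟨mk fun k => t (N k) k, trivial, fun j => ?_⟩
  rw [← hH, mk_eval, val_lt]
  intro C
  filter_upwards [hA (j + 1 + C), uf_ge (j + 1 + C)] with k h1 h2
  have h3 : j + 1 + C ≤ N k := Nat.le_findGreatest h2 h1
  have h4 : ‖((H j).eval (t (N k))) k‖ * R k ^ N k ≤ 1 := Nat.findGreatest_spec
    (P := fun n => ∀ j < n, ‖((H j).eval (t n)) k‖ * R k ^ n ≤ 1) h2 h1 j
    (show j < N k by omega)
  have e : ((H j).eval fun k => t (N k) k) k = ((H j).eval (t (N k))) k := by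
    simp [eval_eq_sum_range, Finset.sum_apply]
  rw [e]
  refine le_trans ?_ h4
  have := hR k
  gcongr
  · linarith
  · omega

lemma eval_eq_zero_of_div {E : Type} [Field E] {G : E[X]} {t : E} (hc1 : G.coeff 1 ≠ 0)
    (e : G.coeff 0 / G.coeff 1 + t +
      ∑ x ∈ Finset.range G.natDegree, G.coeff (x + 2) / G.coeff 1 * t ^ (x + 2) = 0) :
    G.eval t = 0 := by
  rw [eval_eq_sum_range' (n := G.natDegree + 2) (by omega), Finset.sum_range_succ',
    Finset.sum_range_succ']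
  have e2 := congrArg (G.coeff 1 * ·) e
  simp only [mul_add] at e2
  rw [Finset.mul_sum] at e2
  simp only [← mul_assoc, mul_div_cancel₀ _ hc1, mul_zero] at e2
  simp only [zero_add, pow_one, pow_zero, mul_one]
  linear_combination e2

lemma hens_up [∀ k, CompleteSpace (K k)] : Hens (bdd K hR).valuation ⊤ := by
  classical
  intro G _ hG h0 h1
  have hc1 : G.coeff 1 ≠ 0 := fun e => by simp [e] at h1
  choose c hc using fun i => mk_surj (K := K) (G.coeff i / G.coeff 1)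
  have hb : ∀ i, Bd R (c i) := fun i => by
    rw [← val_le hR, hc, map_div₀, h1, div_one]; exact hG i
  have hs : Sm R (c 0) := by rw [← val_lt hR, hc, map_div₀, h1, div_one]; exact h0
  choose C hC using hb
  set d := G.natDegree
  set D := ∑ i ∈ Finset.range d, C (i + 2)
  have hloc : ∀ k, ∃ t : K k, ((∀ i ∈ Finset.range d, ‖c (i + 2) k‖ ≤ R k ^ C (i + 2)) ∧
      ‖c 0 k‖ * R k ^ (4 * (d + 1) ^ 2 + D) ≤ 1) →
      c 0 k + t + ∑ i ∈ Finset.range d, c (i + 2) k * t ^ (i + 2) = 0 ∧ ‖t‖ ≤ 2 * ‖c 0 k‖ :=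
    fun k => by
      refine exists_imp ?_
      rintro ⟨h2, h3⟩
      have h4 := hR k
      refine local_hensel d (fun i => c (i + 2) k) (c 0 k) (M := R k ^ D)
        (one_le_pow₀ (by linarith)) (fun i hi => (h2 i (Finset.mem_range.2 hi)).trans
          (pow_le_pow_right₀ (by linarith) (Finset.single_le_sum (f := fun i => C (i + 2))
            (fun _ _ => Nat.zero_le _) (Finset.mem_range.2 hi)))) (le_trans ?_ h3)
      rw [pow_add]
      gcongr
      calc (4 * (d + 1) ^ 2 : ℝ) = ((4 * (d + 1) ^ 2 : ℕ) : ℝ) := by push_cast; ring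
        _ ≤ ((2 ^ (4 * (d + 1) ^ 2) : ℕ) : ℝ) := by exact_mod_cast Nat.lt_two_pow_self.le
        _ ≤ _ := by push_cast; gcongr
  choose t ht using hloc
  have hae := ((eventually_all_finset (Finset.range d)).2 fun i _ => hC (i + 2)).and
    (hs (4 * (d + 1) ^ 2 + D))
  refine ⟨mk t, trivial, ?_, ?_⟩
  · have e : mk (c 0 + t + ∑ i ∈ Finset.range d, c (i + 2) * t ^ (i + 2)) = 0 := by
      rw [mk_zero]
      filter_upwards [hae] with k hk
      simpa [Finset.sum_apply] using (ht k hk).1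
    simp only [map_add, map_sum, map_mul, map_pow, hc] at e
    exact eval_eq_zero_of_div hc1 e
  · rw [val_lt]
    intro C'
    filter_upwards [hae, hs (C' + 1)] with k hk h2
    have h3 := (ht k hk).2
    have h4 := hR k
    rw [pow_succ] at h2
    calc ‖t k‖ * R k ^ C' ≤ R k * ‖c 0 k‖ * R k ^ C' := by
          gcongr; exact h3.trans (by gcongr)
      _ ≤ 1 := by linarith

end Pool.Agent.MP_28f2cb_lc.H31
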